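import Pool.Agent.Y190.GN.Glob
import Pool.Agent.W602.GT.Mord

/-!
The equivalences.
-/

set_option autoImplicit false

open FF Pool.Agent.W603.LV Pool.Agent.W602.GT Pool.Agent.Y190.BV Pool.Agent.TH145.MF
open LinearAlgebra.Projectivization

namespace Pool.Agent.Y190.GN

set_option linter.unusedSectionVars false

variable {K : Type} [Field K]

/-- More than `4 n` of the `a j` lie in the field `k0`, and for an element `s` that is
transcendental over `k0`, there are `n` of the `a j` such that `s` is algebraic over `k0 (a j)`. -/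
def Moving {N : ℕ} (k0 : Subfield K) (a : Fin (N + 1) → K) (n : ℕ) : Prop :=
  ∃ (s : K) (C S : Finset (Fin (N + 1))), Transcendental k0 s ∧ 4 * n < C.card ∧
    (∀ j ∈ C, a j ∈ k0) ∧ n ≤ S.card ∧
    ∀ j ∈ S, IsAlgebraic (IntermediateField.adjoin k0 {a j}) s

/-- lines give curves on which there are infinitely many rational points -/
theorem gm_of_line [Infinite K] {N : ℕ} {ι : Type} {F : ι → MvPolynomial (Fin (N + 1)) K}
    {p q : Fin (N + 1) → K} (h : Line F p q) : ∃ P, GmCurve F P := by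
  by_contra hcon
  push Not at hcon
  have h1 := line_key (F := F) (G := 1) (fun P hP => absurd hP (hcon P)) h
  unfold val at h1
  rw [map_one] at h1
  exact one_ne_zero h1

section

variable [IsAlgClosed K] [CharZero K] {N n m : ℕ}

theorem noLine_of_mordellic {ι : Type} {F : ι → MvPolynomial (Fin (N + 1)) K}
    (hM : Mordellic F) (p q : Fin (N + 1) → K) : ¬ Line F p q := by
  intro h
  obtain ⟨P, hP⟩ := gm_of_line h
  obtain ⟨s0, hfin⟩ := hM
  have h1 : val (fun i => (P i).eval 1) (1 : MvPolynomial (Fin (N + 1)) K) ≠ 0 := by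
    unfold val
    rw [map_one]
    exact one_ne_zero
  obtain ⟨T, hT, hinf⟩ := infinite_points hP h1 s0
  apply hinf
  refine (hfin T hT).subset ?_
  rintro p ⟨x, ⟨hx, -⟩, hxT, hx0, rfl⟩
  exact ⟨x, hx, hxT, hx0, rfl⟩

theorem ratPts_sub {ι : Type} {F : ι → MvPolynomial (Fin (N + 1)) K} {k0 : Subfield K}
    {T : Finset K} {V : Set (Fin (N + 1) → K)} (hV : V ⊆ Cone F)
    (hoff : ∀ x ∈ V, ¬ OnLine F x) : RatPts V T ⊆ OffPts F k0 T := by
  rintro p ⟨x, hx, hxT, hx0, rfl⟩
  exact ⟨x, hV hx, hoff x hx, fun i => Subfield.closure_mono Set.subset_union_right (hxT i),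
    hx0, rfl⟩

theorem off_fin (hm : 2 ≤ m) (hn : 1 ≤ n) (hnm : n < 2 * m) {a : Fin (N + 1) → K}
    (ha : Function.Injective a) {k0 : Subfield K} (hk : Moving k0 a n) {ι : Type}
    {F : ι → MvPolynomial (Fin (N + 1)) K} (hF : ∀ e, IsForm (F e)) (hV : Cone F ⊆ PowVal a n m)
    (T : Finset K) : (OffPts F k0 T).Finite := by
  obtain ⟨s, C, S, hs, hC, hCk, hS, hSk⟩ := hk
  exact off_finite k0 s hs hm hn hnm ha C hC hCk S hS hSk hF hV T

theorem mordellic_iff (hm : 2 ≤ m) (hn : 1 ≤ n) (hnm : n < 2 * m) {a : Fin (N + 1) → K}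
    (ha : Function.Injective a) {k0 : Subfield K} (hk : Moving k0 a n) {ι : Type}
    {F : ι → MvPolynomial (Fin (N + 1)) K} (hF : ∀ e, IsForm (F e)) (hV : Cone F ⊆ PowVal a n m) :
    Mordellic F ↔ ∀ p q, ¬ Line F p q := by
  refine ⟨noLine_of_mordellic, fun h => ⟨∅, fun T _ => ?_⟩⟩
  refine (off_fin hm hn hnm ha hk hF hV T).subset (ratPts_sub subset_rfl ?_)
  rintro x - ⟨p, q, hpq, -⟩
  exact h p q hpq

/-- All subvarieties are of general type if and only if there are no lines. -/
theorem general_iff (hm : 2 ≤ m) (hnm : n < 2 * m) (hN : 4 * n + (n + 1) ^ 2 < 2 * (N + 1))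
    {a : Fin (N + 1) → K} (ha : Function.Injective a) {ι : Type}
    {F : ι → MvPolynomial (Fin (N + 1)) K} (hF : ∀ e, IsForm (F e))
    (hsub : Cone F ⊆ PowVal a n m) : AllGeneralType F ↔ ∀ p q, ¬ Line F p q := by
  have hn : n ≤ N := by nlinarith
  have hsub' : Cone F ⊆ Cone (buchi a n m) := by rw [cone_buchi ha hn]; exact hsub
  constructor
  · intro h p q hpq
    obtain ⟨P, hP⟩ := gm_of_line hpq
    obtain ⟨L, _, _, y, hy, hgt⟩ := sub_of_gm hF hP
    exact hgt (h L 1 y le_rfl hy)
  · intro h L _ _ w y hw hy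
    by_contra hgt
    have hchK : CharZero L := charZero_of_injective_algebraMap (algebraMap K L).injective
    have hinfK : Infinite L := inferInstance
    have hy' : SubVar (buchi a n m) L w y := ⟨hy.ne, sub_ext hsub' hy.ne hy.mem, hy.gen, hy.dim⟩
    obtain ⟨hmn, t, z, hyz, hz, ⟨i, j, hij, hi, hj⟩, htr, htop⟩ :=
      structure_thm hm hnm hN ha hy' hgt
    have h1 := mem_closure (G := 1) y z ⟨i, j, by
      rw [hyz i, hyz j]
      have e : (algebraMap K L (a i) - t) * z i * z j - (algebraMap K L (a j) - t) * z j * z i =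
          algebraMap K L (a i - a j) * (z i * z j) := by
        rw [map_sub]; ring
      rw [e]
      exact mul_ne_zero ((_root_.map_ne_zero _).2 (sub_ne_zero.2 fun h => hij (ha h)))
        (mul_ne_zero hi hj)⟩
      (fun c c' e => line_vanish hyz hi htr (hF e) (hy.mem e) c c')
      (fun p q hpq => absurd hpq (h p q))
    unfold val at h1
    rw [map_one] at h1
    exact one_ne_zero h1

/-- the equations of the closure of a point -/
def eqs {L : Type} [Field L] [Algebra K L] (y : Fin (N + 1) → L) :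
    {G : MvPolynomial (Fin (N + 1)) K // IsForm G ∧ val y G = 0} →
      MvPolynomial (Fin (N + 1)) K := fun G => G.1

theorem cone_eqs {L : Type} [Field L] [Algebra K L] (y : Fin (N + 1) → L) :
    Cone (eqs y) = VarPts K y := by
  ext x
  exact ⟨fun h => ⟨h.1, fun G hG h0 => h.2 ⟨G, hG, h0⟩⟩, fun h => ⟨h.1, fun G =>
    h.2 G.1 G.2.1 G.2.2⟩⟩

theorem gen_eqs {L : Type} [Field L] [Algebra K L] {y : Fin (N + 1) → L} (hy0 : y ≠ 0)
    (G : MvPolynomial (Fin (N + 1)) K) (hG : IsForm G) :
    val y G = 0 ↔ ∀ x ∈ Cone (eqs (K := K) y), val x G = 0 := by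
  constructor
  · intro h x hx
    exact hx.2 ⟨G, hG, h⟩
  · intro h
    by_contra hne
    obtain ⟨i, hi⟩ := Function.ne_iff.1 hy0
    have hH : MvPolynomial.aeval y (G * MvPolynomial.X i) ≠ 0 := by
      rw [map_mul, MvPolynomial.aeval_X]
      exact mul_ne_zero hne hi
    obtain ⟨x, hx, hx0⟩ := specialise y _ hH
    rw [map_mul, MvPolynomial.aeval_X] at hx
    have h1 := left_ne_zero_of_mul hx
    have h2 := right_ne_zero_of_mul hx
    exact h1 (h x ⟨fun h => h2 (congrFun h i), fun e => hx0 _ e.2.2⟩)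

theorem powVal_closed {a : Fin (N + 1) → K} (ha : Function.Injective a) (hn : n ≤ N) {L : Type}
    [Field L] [Algebra K L] {y : Fin (N + 1) → L} {H : Polynomial L} (hH : H.natDegree ≤ n)
    (hy : ∀ i, y i ^ m = H.eval (algebraMap K L (a i))) : Cone (eqs y) ⊆ PowVal a n m := by
  rw [← cone_buchi ha hn]
  rintro x ⟨hx0, hx⟩
  refine ⟨hx0, fun l => hx ⟨_, isForm_buchi a n m l, ?_⟩⟩
  exact mem_of_poly a n m y H hH (fun i => (hy i).symm) l

/-- **The conjecture of Lang and Vojta.** -/
theorem lang_vojta (hm : 2 ≤ m) (hn1 : 1 ≤ n) (hnm : n < 2 * m)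
    (hN : 4 * n + (n + 1) ^ 2 < 2 * (N + 1)) {a : Fin (N + 1) → K} (ha : Function.Injective a)
    {k0 : Subfield K} (hk : Moving k0 a n) {L : Type} [Field L] [Algebra K L] {w : ℕ}
    (hw : 1 ≤ w) {y : Fin (N + 1) → L} (hy0 : y ≠ 0) (hgen : coords K y = ⊤)
    (hdim : Algebra.trdeg K L = w) {H : Polynomial L} (hH : H.natDegree ≤ n)
    (hy : ∀ i, y i ^ m = H.eval (algebraMap K L (a i))) :
    [GeneralType K L w, PseudoMordellic K y, ¬ Ruled K L].TFAE := by
  have hn : n ≤ N := by nlinarith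
  have hcz : CharZero L := charZero_of_injective_algebraMap (algebraMap K L).injective
  have hsub := powVal_closed ha hn hH hy
  have hF : ∀ e, IsForm (eqs (K := K) y e) := fun e => e.2.1
  have hsv : SubVar (eqs (K := K) y) L w y := ⟨hy0, fun e => e.2.2, hgen, hdim⟩
  have heq := lang_equiv hm hnm hN ha hF (by rw [cone_buchi ha hn]; exact hsub) hw hsv
    (fun G hG => gen_eqs hy0 G hG)
  have h15 := heq.out 0 4
  have h14 := heq.out 0 3
  have h13 := heq.out 0 2
  tfae_have 1 ↔ 3 := h15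
  tfae_have 1 → 2 := by
    intro h
    have h1 := h14.1 h
    obtain ⟨x, hx, hxn⟩ : ∃ x ∈ Cone (eqs (K := K) y), x ∉ SpLine (eqs (K := K) y) := by
      by_contra hcon
      push Not at hcon
      exact h1 (Set.Subset.antisymm (fun x hx => hx.1) hcon)
    obtain ⟨G, hG, hall, hGx⟩ : ∃ G : MvPolynomial (Fin (N + 1)) K, IsForm G ∧
        (∀ p q, Line (eqs (K := K) y) p q → ∀ c c' : K, val (c • p + c' • q) G = 0) ∧
        val x G ≠ 0 := by
      by_contra hcon
      push Not at hcon
      exact hxn ⟨hx, fun G hG h => hcon G hG h⟩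
    refine ⟨G, ∅, hG, fun h0 => hGx ((gen_eqs hy0 G hG).1 h0 x hx), fun T _ => ?_⟩
    refine (off_fin hm hn1 hnm ha hk hF hsub T).subset (ratPts_sub ?_ ?_)
    · rw [cone_eqs]
      exact Set.inter_subset_left
    · rintro z ⟨-, hz⟩ ⟨p, q, hpq, c, c', rfl⟩
      exact hz (hall p q hpq c c')
  tfae_have 2 → 1 := by
    rintro ⟨G, s0, hG, hGy, hfin⟩
    rw [h13]
    intro hsp
    obtain ⟨x, hx, hxG⟩ : ∃ x ∈ Cone (eqs (K := K) y), val x G ≠ 0 := by
      by_contra hcon
      push Not at hcon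
      exact hGy ((gen_eqs hy0 G hG).2 hcon)
    rw [← hsp] at hx
    obtain ⟨P, hP, t, -, ht⟩ : ∃ P, GmCurve (eqs (K := K) y) P ∧ ∃ t : K, t ≠ 0 ∧
        val (fun i => (P i).eval t) G ≠ 0 := by
      by_contra hcon
      push Not at hcon
      exact hxG (hx.2 G hG hcon)
    obtain ⟨T, hT, hinf⟩ := infinite_points hP ht s0
    apply hinf
    have h1 := hfin T hT
    rw [← cone_eqs] at h1
    exact h1
  tfae_finish

/-- Algebraically independent nodes. -/
theorem moving_of_indep {a : Fin (N + 1) → K} (hn : 1 ≤ n) (hN : 5 * n ≤ N)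
    (ha : AlgebraicIndependent ℚ a) : ∃ k0 : Subfield K, Moving k0 a n := by
  classical
  let j1 : Fin (N + 1) := Fin.last N
  let C : Finset (Fin (N + 1)) := Finset.univ.image (Fin.castLE (by omega) :
    Fin (4 * n + 1) → Fin (N + 1))
  let S : Finset (Fin (N + 1)) := Finset.univ.image fun i : Fin n =>
    (⟨4 * n + 1 + i, by omega⟩ : Fin (N + 1))
  let b : Fin (N + 1) → K := fun j => if (j : ℕ) ≤ 4 * n ∨ j = j1 then a j else a j - a j1
  have hb : AlgebraicIndependent ℚ b := by
    let φ : MvPolynomial (Fin (N + 1)) ℚ →ₐ[ℚ] MvPolynomial (Fin (N + 1)) ℚ :=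
      MvPolynomial.aeval fun j => if (j : ℕ) ≤ 4 * n ∨ j = j1 then MvPolynomial.X j else
        MvPolynomial.X j - MvPolynomial.X j1
    let ψ : MvPolynomial (Fin (N + 1)) ℚ →ₐ[ℚ] MvPolynomial (Fin (N + 1)) ℚ :=
      MvPolynomial.aeval fun j => if (j : ℕ) ≤ 4 * n ∨ j = j1 then MvPolynomial.X j else
        MvPolynomial.X j + MvPolynomial.X j1
    have h1 : (MvPolynomial.aeval b : MvPolynomial (Fin (N + 1)) ℚ →ₐ[ℚ] K) =
        (MvPolynomial.aeval a).comp φ := by
      apply MvPolynomial.algHom_ext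
      intro j
      rw [AlgHom.comp_apply, MvPolynomial.aeval_X, MvPolynomial.aeval_X]
      simp only [b]
      split_ifs with h
      · rw [MvPolynomial.aeval_X]
      · rw [map_sub, MvPolynomial.aeval_X, MvPolynomial.aeval_X]
    have h2 : ψ.comp φ = AlgHom.id ℚ _ := by
      apply MvPolynomial.algHom_ext
      intro j
      rw [AlgHom.comp_apply, MvPolynomial.aeval_X, AlgHom.id_apply]
      split_ifs with h
      · rw [MvPolynomial.aeval_X, if_pos h]
      · rw [map_sub, MvPolynomial.aeval_X, MvPolynomial.aeval_X, if_neg h,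
          if_pos (Or.inr rfl), add_sub_cancel_right]
    have h3 : Function.Injective φ := by
      intro p q hpq
      have h4 := congrArg ψ hpq
      rw [← AlgHom.comp_apply, ← AlgHom.comp_apply, h2] at h4
      exact h4
    unfold AlgebraicIndependent
    rw [h1, AlgHom.coe_comp]
    exact Function.Injective.comp ha h3
  have htr := hb.transcendental_adjoin (s := {j1}ᶜ) (i := j1) (by simp)
  have hbj1 : b j1 = a j1 := by simp [b]
  have hmem : ∀ j, j ≠ j1 → b j ∈ IntermediateField.adjoin ℚ (b '' {j1}ᶜ) := fun j hj =>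
    IntermediateField.subset_adjoin ℚ _ ⟨j, hj, rfl⟩
  refine ⟨(IntermediateField.adjoin ℚ (b '' {j1}ᶜ)).toSubfield, a j1, C, S, ?_, ?_, ?_, ?_, ?_⟩
  · intro h
    apply htr
    rw [hbj1]
    exact IntermediateField.isAlgebraic_adjoin_iff.1 h
  · rw [Finset.card_image_of_injective _ (Fin.castLE_injective _), Finset.card_univ,
      Fintype.card_fin]
    omega
  · intro j hj
    obtain ⟨i, -, rfl⟩ := Finset.mem_image.1 hj
    have h1 : ((Fin.castLE (by omega) i : Fin (N + 1)) : ℕ) ≤ 4 * n := by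
      rw [Fin.val_castLE]
      omega
    have h2 : (Fin.castLE (by omega) i : Fin (N + 1)) ≠ j1 := by
      intro h
      rw [h] at h1
      simp only [j1, Fin.val_last] at h1
      omega
    have h3 := hmem _ h2
    simp only [b] at h3
    rw [if_pos (Or.inl h1)] at h3
    exact h3
  · rw [Finset.card_image_of_injective, Finset.card_univ, Fintype.card_fin]
    intro i j hij
    rw [Fin.mk.injEq] at hij
    exact Fin.ext (by omega)
  · intro j hj
    obtain ⟨i, -, hij⟩ := Finset.mem_image.1 hj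
    have h1 : ¬ (j : ℕ) ≤ 4 * n := by
      rw [← hij]
      simp only
      omega
    by_cases h2 : j = j1
    · rw [h2]
      exact isAlgebraic_algebraMap (⟨a j1, IntermediateField.subset_adjoin _ _ rfl⟩ :
        IntermediateField.adjoin (IntermediateField.adjoin ℚ (b '' {j1}ᶜ)).toSubfield {a j1})
    · have h3 := hmem _ h2
      have h4 : b j = a j - a j1 := by
        simp only [b]
        rw [if_neg (by push Not; exact ⟨by omega, h2⟩)]
      have h5 : a j1 ∈ IntermediateField.adjoin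
          (IntermediateField.adjoin ℚ (b '' {j1}ᶜ)).toSubfield {a j} := by
        have h6 : a j1 = a j - b j := by rw [h4]; ring
        rw [h6]
        refine sub_mem (IntermediateField.subset_adjoin _ _ rfl) ?_
        exact IntermediateField.algebraMap_mem _
          (⟨b j, h3⟩ : (IntermediateField.adjoin ℚ (b '' {j1}ᶜ)).toSubfield)
      exact isAlgebraic_algebraMap (⟨a j1, h5⟩ :
        IntermediateField.adjoin (IntermediateField.adjoin ℚ (b '' {j1}ᶜ)).toSubfield {a j})

end

end Pool.Agent.Y190.GN
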