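import Pool.Agent.Y190.GN.Off

/-!
Finiteness of the points over a function field that do not lie on lines.
-/

set_option autoImplicit false

open Polynomial FF Pool.Agent.W603.LV Pool.Agent.W603.PV Pool.Agent.W602.GT Pool.Agent.Y190.BV

namespace Pool.Agent.Y190.GN

/-- the polynomial has coefficients in the small field -/
theorem exists_small {L K : Type} [Field L] [Field K] [Algebra L K] {N n m : ℕ} (hn : n ≤ N)
    {a : Fin (N + 1) → L} (ha : Function.Injective a) {y : Fin (N + 1) → L} {H : K[X]}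
    (hd : H.natDegree ≤ n) (hH : ∀ j, H.eval (algebraMap L K (a j)) = algebraMap L K (y j) ^ m) :
    ∃ H' : L[X], H'.natDegree ≤ n ∧ ∀ j, y j ^ m = H'.eval (a j) := by
  classical
  let x : Fin (n + 1) → L := fun s => a (Fin.castLE (by omega) s)
  have hx : Function.Injective x := fun s t hst => Fin.castLE_injective _ (ha hst)
  have h1 := lagrange_map hd hx
  refine ⟨∑ s, C (y (Fin.castLE (by omega) s) ^ m) * Lagrange.basis Finset.univ x s, ?_, ?_⟩
  · refine natDegree_sum_le_of_forall_le _ _ fun s _ => ?_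
    refine (natDegree_C_mul_le _ _).trans ?_
    have h2 := Lagrange.degree_basis (s := (Finset.univ : Finset (Fin (n + 1)))) (v := x)
      hx.injOn (Finset.mem_univ s)
    rw [Finset.card_univ, Fintype.card_fin, Nat.add_sub_cancel] at h2
    exact (natDegree_eq_of_degree_eq_some h2).le
  · intro j
    apply (algebraMap L K).injective
    rw [map_pow, ← hH j, h1, eval_finsetSum, eval_finsetSum, map_sum]
    refine Finset.sum_congr rfl fun s _ => ?_
    rw [eval_mul, eval_mul, map_mul, eval_C, eval_C, map_pow]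
    congr 1
    · exact hH _
    · rw [eval_map_algebraMap, aeval_algebraMap_apply, coe_aeval_eq_eval]

/-- a root of multiplicity `m` -/
theorem exists_root_pow {L : Type} [Field L] {m n : ℕ} (hnm : n < 2 * m) {H : L[X]} (hH : H ≠ 0)
    (hd : H.natDegree ≤ n) (h : ¬ ∀ p : L[X], Irreducible p → ¬ p ^ m ∣ H) :
    m ≤ n ∧ ∃ (t : L) (Q : L[X]), Q ≠ 0 ∧ Q.natDegree ≤ n - m ∧ H = (X - C t) ^ m * Q := by
  push Not at h
  obtain ⟨p, hp, hdvd⟩ := h
  have h1 := Polynomial.natDegree_le_of_dvd hdvd hH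
  rw [Polynomial.natDegree_pow] at h1
  have h2 : p.natDegree = 1 := by
    have h3 := hp.natDegree_pos
    have h4 : m * p.natDegree < m * 2 := by omega
    have h5 := lt_of_mul_lt_mul_left h4 (Nat.zero_le m)
    omega
  obtain ⟨t, ht⟩ : ∃ t, p.eval t = 0 := by
    have h3 : p.degree = 1 := by
      rw [Polynomial.degree_eq_natDegree hp.ne_zero, h2]
      rfl
    exact Polynomial.exists_root_of_degree_eq_one h3
  have h4 : X - C t ∣ p := Polynomial.dvd_iff_isRoot.2 ht
  obtain ⟨Q, hQ⟩ := (pow_dvd_pow_of_dvd h4 m).trans hdvd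
  have hQ0 : Q ≠ 0 := by
    rintro rfl
    rw [mul_zero] at hQ
    exact hH hQ
  have hdeg : H.natDegree = m + Q.natDegree := by
    rw [hQ, natDegree_mul (pow_ne_zero _ (X_sub_C_ne_zero t)) hQ0, natDegree_pow,
      natDegree_X_sub_C, mul_one]
  exact ⟨by omega, t, Q, hQ0, by omega, hQ⟩

variable {k L K : Type} [Field k] [IsAlgClosed k] [CharZero k] [Field L] [Algebra k L] [IsFF k L]
  [Field K] [Algebra L K]

/-- **Finiteness of the points that are not on lines.** -/
theorem fin_off {m n r : ℕ} (hm : 2 ≤ m) (hnm : n < 2 * m) {a : Fin (r + 2) → L}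
    (ha : Function.Injective a) (Cn : Finset (Fin (r + 2)))
    (hC : 4 * n < Cn.card) (hCc : ∀ j ∈ Cn, ∃ c : k, a j = algebraMap k L c)
    (S : Finset (Fin (r + 2))) (hS : n ≤ S.card) (hSm : ∀ j ∈ S, ∀ c : k, a j ≠ algebraMap k L c)
    {ι : Type} {F : ι → MvPolynomial (Fin (r + 2)) K} (hF : ∀ e, IsForm (F e))
    (hcov : ∀ y ∈ Cone F, ∃ H : K[X], H.natDegree ≤ n ∧
      ∀ j, H.eval (algebraMap L K (a j)) = y j ^ m) (j0 : Fin (r + 2)) :
    {y : Fin (r + 2) → L | y j0 = 1 ∧ (fun i => algebraMap L K (y i)) ∈ Cone F ∧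
      ¬ OnLine F (fun i => algebraMap L K (y i))}.Finite := by
  classical
  have hcz : CharZero L := charZero_of_injective_algebraMap (algebraMap k L).injective
  have hcK : CharZero K := charZero_of_injective_algebraMap (algebraMap L K).injective
  have hcard : Cn.card ≤ r + 2 := by
    have := Finset.card_le_univ Cn
    rwa [Fintype.card_fin] at this
  have hV := fin_free' (k := k) hm hnm ha Cn hC hCc S hS hSm j0
  -- the two sets of candidates
  let T : (Fin (r + 2) → L) → Set L := fun z => {t | (∃ i, i ≠ j0 ∧ z i ≠ 0) ∧ z j0 = 1 ∧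
    t ≠ a j0 ∧ (fun i => algebraMap L K (z i * (a i - t) / (a j0 - t))) ∈ Cone F ∧
      ¬ OnLine F fun i => algebraMap L K (z i * (a i - t) / (a j0 - t))}
  have hT : ∀ z, (T z).Finite := by
    intro z
    by_contra hinf
    have hinf' : (T z).Infinite := hinf
    obtain ⟨t0, ht0⟩ := hinf'.nonempty
    obtain ⟨⟨i, hij, hi⟩, hz, -, -, -⟩ := ht0
    have hline : Line F (fun i => algebraMap L K (a i) * algebraMap L K (z i))
        (fun i => algebraMap L K (z i)) := by
      refine line_of_infinite (A := algebraMap L K '' T z) hF ((algebraMap L K).injective.comp ha)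
        (i := i) (j := j0) hij ?_ ?_ (hinf'.image (algebraMap L K).injective.injOn) ?_
      · exact (_root_.map_ne_zero _).2 hi
      · rw [hz, map_one]; exact one_ne_zero
      · rintro _ ⟨t, ht, rfl⟩ e
        obtain ⟨-, -, htj, hcone, -⟩ := ht
        obtain ⟨d, hd⟩ := hF e
        have h1 : val (fun i => algebraMap L K (z i * (a i - t) / (a j0 - t))) (F e) = 0 :=
          hcone.2 e
        have h2 := Pool.Agent.H159R3.Lang.aeval_smul_homog hd (algebraMap L K (a j0 - t))
          (fun i => algebraMap L K (z i * (a i - t) / (a j0 - t)))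
        have h3 : (fun i => (algebraMap L K (a i) - algebraMap L K t) * algebraMap L K (z i)) =
            (algebraMap L K (a j0 - t)) •
              fun i => algebraMap L K (z i * (a i - t) / (a j0 - t)) := by
          funext i
          rw [Pi.smul_apply, smul_eq_mul, ← map_mul, ← map_sub, ← map_mul]
          congr 1
          have : a j0 - t ≠ 0 := sub_ne_zero.2 (Ne.symm htj)
          field_simp
        unfold val at h1 ⊢
        rw [h1, mul_zero, ← h3] at h2
        exact h2
    obtain ⟨t, ht⟩ := hinf'.nonempty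
    obtain ⟨-, -, htj, -, hoff⟩ := ht
    apply hoff
    refine ⟨_, _, hline, algebraMap L K (1 / (a j0 - t)), algebraMap L K (- t / (a j0 - t)), ?_⟩
    funext i
    simp only [Pi.add_apply, Pi.smul_apply, smul_eq_mul]
    rw [← map_mul, ← map_mul, ← map_mul, ← map_add]
    congr 1
    have : a j0 - t ≠ 0 := sub_ne_zero.2 (Ne.symm htj)
    field_simp
    ring
  have hfin : (VSet m n a j0 ∪ (⋃ i0 : Fin (r + 2), {y : Fin (r + 2) → L | m ≤ n ∧
      y j0 = 1 ∧ ∃ Q : L[X], Q ≠ 0 ∧ Q.natDegree ≤ n - m ∧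
      ∀ j, y j ^ m = (a j - a i0) ^ m * Q.eval (a j)}) ∪
      ⋃ z ∈ VSet m n a j0, (fun t => fun i => z i * (a i - t) / (a j0 - t)) '' T z).Finite := by
    refine (hV.union (Set.finite_iUnion fun i0 => ?_)).union
      (hV.biUnion fun z _ => (hT z).image _)
    by_cases hmn : m ≤ n
    · refine (fin_node (k := k) hm hnm ha Cn hC hCc S hS hSm j0 i0 hmn).subset ?_
      rintro y ⟨-, h⟩
      exact h
    · refine Set.Finite.subset Set.finite_empty ?_
      rintro y ⟨h, -⟩
      exact absurd h hmn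
  refine hfin.subset ?_
  rintro y ⟨hy1, hycone, hyoff⟩
  obtain ⟨HK, hHKd, hHK⟩ := hcov _ hycone
  obtain ⟨H, hHd, hH⟩ := exists_small (m := m) (by omega : n ≤ r + 1) ha hHKd hHK
  have hH0 : H ≠ 0 := by
    rintro rfl
    have h1 := hH j0
    rw [hy1, one_pow, eval_zero] at h1
    exact one_ne_zero h1
  by_cases hfree : ∀ p : L[X], Irreducible p → ¬ p ^ m ∣ H
  · exact Or.inl (Or.inl ⟨hy1, H, hHd, hfree, hH⟩)
  obtain ⟨hmn, t, Q, hQ0, hQd, hHQ⟩ := exists_root_pow hnm hH0 hHd hfree
  have hyQ : ∀ j, y j ^ m = (a j - t) ^ m * Q.eval (a j) := by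
    intro j
    rw [hH j, hHQ, eval_mul, eval_pow, eval_sub, eval_X, eval_C]
  by_cases hnode : ∃ i0, t = a i0
  · obtain ⟨i0, rfl⟩ := hnode
    refine Or.inl (Or.inr ?_)
    rw [Set.mem_iUnion]
    exact ⟨i0, hmn, hy1, Q, hQ0, hQd, hyQ⟩
  push Not at hnode
  have hne : ∀ i, a i - t ≠ 0 := fun i => sub_ne_zero.2 (Ne.symm (hnode i))
  let z : Fin (r + 2) → L := fun i => y i * (a j0 - t) / (a i - t)
  have hz1 : z j0 = 1 := by
    simp only [z]
    rw [hy1, one_mul, div_self (hne j0)]
  have hzQ : ∀ i, z i ^ m = (C ((a j0 - t) ^ m) * Q).eval (a i) := by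
    intro i
    simp only [z]
    rw [div_pow, mul_pow, hyQ, eval_mul, eval_C]
    have := pow_ne_zero m (hne i)
    field_simp
  have hQ'0 : C ((a j0 - t) ^ m) * Q ≠ 0 :=
    mul_ne_zero (by rw [Ne, C_eq_zero]; exact pow_ne_zero _ (hne j0)) hQ0
  have hQ'd : (C ((a j0 - t) ^ m) * Q).natDegree ≤ n - m := (natDegree_C_mul_le _ _).trans hQd
  have hzV : z ∈ VSet m n a j0 :=
    ⟨hz1, _, hQ'd.trans (by omega), free_of_deg hQ'0 (by omega), hzQ⟩
  have hyz : (fun i => z i * (a i - t) / (a j0 - t)) = y := by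
    funext i
    simp only [z]
    have h1 := hne i
    have h2 := hne j0
    field_simp
  refine Or.inr ?_
  rw [Set.mem_iUnion₂]
  refine ⟨z, hzV, t, ?_, hyz⟩
  refine ⟨?_, hz1, hnode j0, ?_, ?_⟩
  · by_contra hcon
    push Not at hcon
    apply hQ'0
    refine Polynomial.eq_zero_of_natDegree_lt_card_of_eval_eq_zero' _
      ((Finset.univ.erase j0).image a) ?_ ?_
    · intro x hx
      obtain ⟨i, hi, rfl⟩ := Finset.mem_image.1 hx
      rw [← hzQ, hcon i (Finset.ne_of_mem_erase hi), zero_pow (by omega)]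
    · rw [Finset.card_image_of_injective _ ha, Finset.card_erase_of_mem (Finset.mem_univ _),
        Finset.card_univ, Fintype.card_fin]
      omega
  · have h1 := congrArg (fun f : Fin (r + 2) → L => fun i => algebraMap L K (f i)) hyz
    exact h1.symm ▸ hycone
  · have h1 := congrArg (fun f : Fin (r + 2) → L => fun i => algebraMap L K (f i)) hyz
    exact h1.symm ▸ hyoff

end Pool.Agent.Y190.GN
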