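import Pool.Agent.Y190.GN.Fin
import Pool.Agent.Y190.BV.Cng
import Pool.Agent.TH145.MF.FF
import Pool.Agent.W602.GT.MordDefs

/-!
Rational points over finitely generated fields.
-/

set_option autoImplicit false

open FF Pool.Agent.W603.LV Pool.Agent.W602.GT Pool.Agent.Y190.BV Pool.Agent.TH145.MF
open LinearAlgebra.Projectivization

namespace Pool.Agent.Y190.GN

variable {K : Type} [Field K]

theorem OnLine.smul {N : ℕ} {ι : Type} {F : ι → MvPolynomial (Fin (N + 1)) K}
    {x : Fin (N + 1) → K} (h : OnLine F x) (c : K) : OnLine F (c • x) := by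
  obtain ⟨p, q, hpq, u, v, rfl⟩ := h
  refine ⟨p, q, hpq, c * u, c * v, ?_⟩
  rw [smul_add, smul_smul, smul_smul]

/-- The points of the projective variety `{F = 0}` that are not on lines contained in it, with
coordinates in the field generated by `T` over `k0`. -/
def OffPts {N : ℕ} {ι : Type} (F : ι → MvPolynomial (Fin (N + 1)) K) (k0 : Subfield K)
    (T : Finset K) : Set (ℙ K (Fin (N + 1) → K)) :=
  {p | ∃ x ∈ Cone F, ¬ OnLine F x ∧ (∀ i, x i ∈ Subfield.closure ((k0 : Set K) ∪ (T : Set K))) ∧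
    ∃ hx : x ≠ 0, p = Projectivization.mk K x hx}

theorem moves {k0 k1 : Subfield K} (h01 : k0 ≤ k1) (hac : IsAlgClosed k1) {s b : K}
    (hs : s ∉ k1) (hb : IsAlgebraic (IntermediateField.adjoin k0 {b}) s) : b ∉ k1 := by
  intro hbk
  have h1 : IsAlgebraic (IntermediateField.adjoin k0 {b}).toSubfield s := hb
  have h2 : ∀ x ∈ IntermediateField.adjoin k0 {b}, x ∈ k1 := by
    intro x hx
    induction hx using IntermediateField.adjoin_induction with
    | mem x hx => rw [Set.mem_singleton_iff] at hx; rw [hx]; exact hbk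
    | algebraMap x => exact h01 x.2
    | add x y hx hy h1 h2 => exact add_mem h1 h2
    | inv x hx h1 => exact inv_mem h1
    | mul x y hx hy h1 h2 => exact mul_mem h1 h2
  have h3 : IsAlgebraic k1 s := alg_mono (F2 := k1) h2 h1
  have h4 := IsAlgClosed.degree_eq_one_of_irreducible k1 (minpoly.irreducible h3.isIntegral)
  obtain ⟨z, hz⟩ := minpoly.mem_range_of_degree_eq_one k1 s h4
  apply hs
  rw [← hz]
  exact z.2

/-- **Finiteness over finitely generated fields.** -/
theorem off_finite [IsAlgClosed K] [CharZero K] (k0 : Subfield K) (s : K)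
    (hs : Transcendental k0 s) {m n N : ℕ} (hm : 2 ≤ m) (hn : 1 ≤ n) (hnm : n < 2 * m)
    {a : Fin (N + 1) → K} (ha : Function.Injective a) (Cn : Finset (Fin (N + 1)))
    (hC : 4 * n < Cn.card) (hCc : ∀ j ∈ Cn, a j ∈ k0) (S : Finset (Fin (N + 1)))
    (hS : n ≤ S.card) (hSm : ∀ j ∈ S, IsAlgebraic (IntermediateField.adjoin k0 {a j}) s)
    {ι : Type} {F : ι → MvPolynomial (Fin (N + 1)) K} (hF : ∀ e, IsForm (F e))
    (hcov : Cone F ⊆ PowVal a n m) (T : Finset K) : (OffPts F k0 T).Finite := by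
  classical
  have hcard : Cn.card ≤ N + 1 := by
    have := Finset.card_le_univ Cn
    rwa [Fintype.card_fin] at this
  obtain ⟨r, rfl⟩ : ∃ r, N = r + 1 := ⟨N - 1, by omega⟩
  obtain ⟨k1, hk01, hac, hsk1, L, hL, hsL, hTL⟩ :=
    exists_ff k0 s hs (T ∪ Finset.univ.image a)
  have hcz : CharZero k1 := charZero_of_injective_algebraMap (algebraMap ℚ k1).injective
  have haL : ∀ j, a j ∈ L := fun j => hTL _ (Finset.mem_union_right _
    (Finset.mem_image_of_mem _ (Finset.mem_univ _)))
  let a' : Fin (r + 2) → L := fun j => ⟨a j, haL j⟩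
  have ha' : Function.Injective a' := fun i j hij => ha (congrArg Subtype.val hij)
  have hfin := fun j0 => fin_off (k := k1) (L := L) (K := K) hm hnm ha' Cn hC
    (fun j hj => ⟨⟨a j, hk01 (hCc j hj)⟩, rfl⟩) S hS
    (fun j hj c hc => moves hk01 hac hsk1 (hSm j hj) (by
      have h1 : a j = (c : K) := congrArg Subtype.val hc
      rw [h1]
      exact c.2)) hF (fun y hy => by
        obtain ⟨-, H, hH, hHy⟩ := hcov hy
        exact ⟨H, hH, fun j => (hHy j).symm⟩) j0
  have hcl : ∀ x ∈ Subfield.closure ((k0 : Set K) ∪ (T : Set K)), x ∈ L := by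
    intro x hx
    have h1 : Subfield.closure ((k0 : Set K) ∪ (T : Set K)) ≤ L.toSubfield := by
      rw [Subfield.closure_le]
      rintro t (ht | ht)
      · exact L.algebraMap_mem ⟨t, hk01 ht⟩
      · exact hTL t (Finset.mem_union_left _ ht)
    exact h1 hx
  let A : Fin (r + 2) → Set (Fin (r + 2) → L) := fun j0 =>
    {y | y j0 = 1 ∧ (fun i => algebraMap L K (y i)) ∈ Cone F ∧
      ¬ OnLine F (fun i => algebraMap L K (y i))}
  have hne : ∀ (j0 : Fin (r + 2)) (z : A j0), (fun i => algebraMap L K (z.1 i)) ≠ 0 :=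
    fun j0 z => z.2.2.1.1
  let f : (j0 : Fin (r + 2)) → A j0 → ℙ K (Fin (r + 2) → K) :=
    fun j0 z => Projectivization.mk K _ (hne j0 z)
  have hun : (⋃ j0, Set.range (f j0)).Finite := by
    apply Set.finite_iUnion
    intro j0
    have h1 : Finite (A j0) := hfin j0
    exact Set.finite_range _
  refine hun.subset ?_
  rintro p ⟨x, hxF, hoff, hxT, hx0, rfl⟩
  obtain ⟨j0, hj0⟩ := Function.ne_iff.1 hx0
  have hj0' : x j0 ≠ 0 := hj0
  have hxL : ∀ i, x i ∈ L := fun i => hcl _ (hxT i)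
  let z : Fin (r + 2) → L := fun i => ⟨x i, hxL i⟩ / ⟨x j0, hxL j0⟩
  have hzc : (fun i => algebraMap L K (z i)) = (x j0)⁻¹ • x := by
    funext i
    change x i / x j0 = (x j0)⁻¹ * x i
    rw [div_eq_inv_mul]
  have hzmem : z ∈ A j0 := by
    refine ⟨?_, ?_, ?_⟩
    · apply Subtype.ext
      change x j0 / x j0 = 1
      rw [div_self hj0']
    · rw [hzc]
      refine ⟨smul_ne_zero (inv_ne_zero hj0') hx0, fun e => ?_⟩
      obtain ⟨d, hd⟩ := hF e
      have h1 := Pool.Agent.H159R3.Lang.aeval_smul_homog hd (x j0)⁻¹ x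
      unfold val
      rw [h1]
      have h2 := hxF.2 e
      unfold val at h2
      rw [h2, mul_zero]
    · rw [hzc]
      intro h
      have h1 := h.smul (x j0)
      rw [smul_smul, mul_inv_cancel₀ hj0', one_smul] at h1
      exact hoff h1
  rw [Set.mem_iUnion]
  refine ⟨j0, ⟨z, hzmem⟩, ?_⟩
  change Projectivization.mk K _ _ = Projectivization.mk K _ _
  rw [Projectivization.mk_eq_mk_iff']
  exact ⟨(x j0)⁻¹, hzc.symm⟩

end Pool.Agent.Y190.GN
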