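import Pool.Agent.Y190.GN.Rig2
import Pool.Agent.TH145.MW.Cramer

/-!
The height of the polynomials whose values at many constants are `m`-th powers.
-/

set_option autoImplicit false

open Polynomial FF Pool.Agent.W603.LV Pool.Agent.W603.PV Pool.Agent.Y216 Pool.Agent.Y190.BV
  Pool.Agent.TH145.MW

namespace Pool.Agent.Y190.GN

variable {k : Type} [Field k] [IsAlgClosed k] [CharZero k] {L : Type} [Field L] [Algebra k L]
  [IsFF k L]

theorem hgt_const (c : k) : hgt k (algebraMap k L c) = 0 :=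
  hgt_algebraic (k := k) (K := L) (isAlgebraic_algebraMap c)

theorem cnt_le_of_dvd {P : Place k L} {p G : L[X]} (hp : p.Monic) (hG : G.Monic) (h : p ∣ G) :
    cnt P G ≤ cnt P p := by
  have hinf : Infinite k := inferInstance
  obtain ⟨r, hr⟩ := h
  have hrm : r.Monic := Monic.of_mul_monic_left hp (hr ▸ hG)
  have h1 : cnt P r ≤ 0 := by
    have h2 := (cnt_ge P r r.natDegree).resolve_left (by
      rw [hrm.coeff_natDegree]; exact one_ne_zero)
    rwa [hrm.coeff_natDegree, P.ord_one] at h2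
  rw [hr, cnt_mul P hp.ne_zero hrm.ne_zero]
  linarith

/-- the coefficients of a factor -/
theorem hgt_coeff_le {p : L[X]} {δ : ℕ} {f : Fin (δ + 1) → L} (hf : f (Fin.last δ) = 1)
    (hG : (pol f).Monic) (hp : p.Monic) (h : p ∣ pol f) (i : ℕ) : hgt k (p.coeff i) ≤ pht k f := by
  classical
  obtain ⟨T1, hT1⟩ := exists_supp (k := k) Finset.univ f
  obtain ⟨T2, hT2⟩ := exists_supp (k := k) (Finset.univ : Finset (Fin 1)) ![p.coeff i]
  have hf0 : ∃ j, f j ≠ 0 := ⟨Fin.last δ, by rw [hf]; exact one_ne_zero⟩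
  set T := T1 ∪ T2 with hT
  have hTp : ∀ P : Place k L, pord P f ≠ 0 → P ∈ T := by
    intro P hP
    obtain ⟨j, _, hj⟩ := exists_pord P hf0
    rw [← hj] at hP
    exact Finset.mem_union_left _ (hT1 j (Finset.mem_univ _) P hP)
  have hs4 : pht k f = - ∑ P ∈ T, pord P f := by
    unfold pht
    rw [finsum_eq_sum_of_support_subset (s := T)]
    intro P hP
    exact Finset.mem_coe.2 (hTp P hP)
  rw [hs4, hgt_finset (p.coeff i) T fun P hP => Finset.mem_union_right _
    (hT2 0 (Finset.mem_univ _) P hP), ← Finset.sum_neg_distrib]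
  refine Finset.sum_le_sum fun P _ => ?_
  have h1 : pord P f ≤ 0 := by
    have := pord_le P (f := f) (j := Fin.last δ) (by rw [hf]; exact one_ne_zero)
    rwa [hf, P.ord_one] at this
  refine max_le ?_ (by omega)
  by_cases hj : p.coeff i = 0
  · rw [hj, P.ord_zero]
    omega
  · have h2 := (cnt_ge P p i).resolve_left hj
    have h3 := cnt_le_of_dvd (P := P) hp hG h
    rw [pord_eq_cnt P hf0] at h3
    omega

theorem hgt_pow_le (f : L) (n : ℕ) : hgt k (f ^ n) ≤ n * hgt k f := by
  by_cases hf : f = 0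
  · rw [hf, hgt_zero, mul_zero]
    by_cases hn : n = 0
    · rw [hn, pow_zero, hgt_one]
    · rw [zero_pow hn, hgt_zero]
  · rw [hgt_pow hf]

/-- the value of a polynomial -/
theorem hgt_eval_le {p : L[X]} {d : ℕ} (hd : p.natDegree ≤ d) {B Y : ℤ} (hB : 0 ≤ B)
    (hc : ∀ i, hgt k (p.coeff i) ≤ B) {y : L} (hy : hgt k y ≤ Y) :
    hgt k (p.eval y) ≤ (d + 1) * (B + d * Y) := by
  have hY : 0 ≤ Y := (hgt_nonneg y).trans hy
  rw [Polynomial.eval_eq_sum_range' (Nat.lt_succ_of_le hd)]
  refine (hgt_sum_le _ _).trans ?_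
  refine (Finset.sum_le_sum (g := fun _ => B + d * Y) fun i hi => ?_).trans ?_
  · refine (hgt_mul_le _ _).trans (add_le_add (hc i) ?_)
    refine (hgt_pow_le _ _).trans ?_
    have h1 : (i : ℤ) ≤ d := by
      have := Finset.mem_range.1 hi
      exact_mod_cast Nat.lt_succ_iff.1 this
    exact mul_le_mul h1 hy (hgt_nonneg y) (by positivity)
  · rw [Finset.sum_const, Finset.card_range, nsmul_eq_mul]
    push_cast
    exact le_rfl

/-- the constant in the height bound -/
def hbd (d : ℕ) (c Y : ℤ) : ℤ := d * (d * (2 * ((d + 1) * (2 * d * max c 0 + d * max Y 0))))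

theorem hbd_nonneg (d : ℕ) (c Y : ℤ) : 0 ≤ hbd d c Y := by
  unfold hbd
  positivity

/-- **The height bound.** -/
theorem hgt_bound_lin {m d q : ℕ} (hm : 2 ≤ m) (hq : 4 * d < q) (Y : ℤ)
    (x : Fin q → k) (hx : Function.Injective x) (H : L[X]) (hH : H ≠ 0) (hdeg : H.natDegree ≤ d)
    (hpow : ∀ i, ∃ w, w ^ m = H.eval (algebraMap k L (x i)))
    (hmult : ∀ p : L[X], Irreducible p → ¬ p ^ m ∣ H)
    (y1 y2 : L) (hy1 : hgt k y1 ≤ Y) (hy2 : hgt k y2 ≤ Y) :
    hgt k (H.eval y1 / H.eval y2) ≤ hbd d (canDeg k L) Y := by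
  classical
  obtain ⟨B0, hB0⟩ : ∃ B0 : ℤ, B0 = 2 * d * max (canDeg k L) 0 := ⟨_, rfl⟩
  have hB00 : 0 ≤ B0 := by rw [hB0]; positivity
  obtain ⟨B1, hB1⟩ : ∃ B1 : ℤ, B1 = (d + 1) * (B0 + d * max Y 0) := ⟨_, rfl⟩
  have hB10 : 0 ≤ B1 := by rw [hB1]; positivity
  have hbdB : hbd d (canDeg k L) Y = d * (d * (2 * B1)) := by
    rw [hB1, hB0]
    rfl
  rw [hbdB]
  have hY0 : 0 ≤ Y := (hgt_nonneg y1).trans hy1
  by_cases he1 : H.eval y1 = 0
  · rw [he1, zero_div, hgt_zero]
    positivity
  by_cases he2 : H.eval y2 = 0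
  · rw [he2, div_zero, hgt_zero]
    positivity
  have hinf : Infinite k := inferInstance
  have hchL : CharZero L := charZero_of_injective_algebraMap (algebraMap k L).injective
  obtain ⟨T, e, u, hu, hT, hHT, hTall⟩ := factor hH
  set T1 : Finset L[X] := T.filter (fun p => ∀ i, p.eval (algebraMap k L (x i)) ≠ 0) with hT1
  set T0 : Finset L[X] := T.filter (fun p => ¬ ∀ i, p.eval (algebraMap k L (x i)) ≠ 0) with hT0
  set G : L[X] := ∏ p ∈ T1, p with hG
  have hT1T : ∀ p ∈ T1, p ∈ T := fun p hp => (Finset.mem_filter.1 hp).1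
  have hem : ∀ p ∈ T, e p < m := by
    intro p hp
    by_contra hcon
    push Not at hcon
    exact hmult p (hT p hp).1 ((pow_dvd_pow p hcon).trans (hT p hp).2.2.2.2)
  have hGsep : G.Separable := by
    refine Polynomial.separable_prod' ?_ ?_
    · intro p hp r hr hpr
      exact coprime_of_ne (hT p (hT1T p hp)).1 (hT r (hT1T r hr)).1 (hT p (hT1T p hp)).2.1
        (hT r (hT1T r hr)).2.1 hpr
    · intro p hp
      exact (hT p (hT1T p hp)).1.separable
  have hGm : G.Monic := Polynomial.monic_prod_of_monic _ _ fun p hp => (hT p (hT1T p hp)).2.1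
  have hGx : ∀ i, G.eval (algebraMap k L (x i)) ≠ 0 := by
    intro i
    rw [hG, Polynomial.eval_prod]
    exact Finset.prod_ne_zero_iff.2 fun p hp => (Finset.mem_filter.1 hp).2 i
  -- the good nodes
  let I1 : Finset (Fin q) := Finset.univ.filter fun i => H.eval (algebraMap k L (x i)) ≠ 0
  let I0 : Finset (Fin q) := Finset.univ.filter fun i => ¬ H.eval (algebraMap k L (x i)) ≠ 0
  have hI : I1.card + I0.card = q := by
    have := Finset.card_filter_add_card_filter_not (s := (Finset.univ : Finset (Fin q)))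
      (fun i => H.eval (algebraMap k L (x i)) ≠ 0)
    rw [Finset.card_univ, Fintype.card_fin] at this
    exact this
  -- degrees
  have hdegT' : ∑ p ∈ T, e p * p.natDegree ≤ d := by
    have h2 : H.natDegree = ∑ p ∈ T, e p * p.natDegree := by
      conv_lhs => rw [hHT]
      rw [Polynomial.natDegree_C_mul hu, Polynomial.natDegree_prod _ _ fun p hp =>
        pow_ne_zero _ (hT p hp).1.ne_zero]
      exact Finset.sum_congr rfl fun p _ => Polynomial.natDegree_pow _ _
    rw [← h2]
    exact hdeg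
  have hdegT : ∑ p ∈ T, p.natDegree ≤ d :=
    (Finset.sum_le_sum fun p hp => Nat.le_mul_of_pos_left _ (hT p hp).2.2.2.1).trans hdegT'
  have hdegG : G.natDegree = ∑ p ∈ T1, p.natDegree := by
    rw [hG, Polynomial.natDegree_prod _ _ fun p hp => (hT p (hT1T p hp)).1.ne_zero]
  have hI0T : I0.card ≤ ∑ p ∈ T0, p.natDegree := by
    have h1 : I0.card ≤ T0.card := by
      refine Finset.card_le_card_of_injOn (fun i => X - C (algebraMap k L (x i))) ?_ ?_
      · intro i hi
        have hi2 := (Finset.mem_filter.1 hi).2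
        rw [not_not] at hi2
        refine Finset.mem_coe.2 (Finset.mem_filter.2 ⟨hTall _ (Polynomial.irreducible_X_sub_C _)
          (Polynomial.monic_X_sub_C _) (Polynomial.dvd_iff_isRoot.2 hi2), ?_⟩)
        push Not
        exact ⟨i, by simp⟩
      · intro i _ j _ hij
        have h2 := Polynomial.C_injective (sub_right_injective hij)
        exact hx ((algebraMap k L).injective h2)
    refine h1.trans ?_
    rw [Finset.card_eq_sum_ones]
    refine Finset.sum_le_sum fun p hp => ?_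
    exact (hT p (Finset.mem_filter.1 hp).1).1.natDegree_pos
  have hsplitT : ∑ p ∈ T1, p.natDegree + ∑ p ∈ T0, p.natDegree = ∑ p ∈ T, p.natDegree :=
    Finset.sum_filter_add_sum_filter_not _ _ _
  -- the coefficients of `G`
  obtain ⟨δ, hδ⟩ : ∃ δ, δ = G.natDegree := ⟨_, rfl⟩
  obtain ⟨f, hf⟩ : ∃ f : Fin (δ + 1) → L, f = fun j : Fin (δ + 1) => G.coeff (j : ℕ) := ⟨_, rfl⟩
  have hfG : pol f = G := by
    rw [hf]
    exact (eq_pol hδ.ge).symm
  have hflast : f (Fin.last δ) = 1 := by
    rw [hf]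
    simp only [Fin.val_last]
    rw [hδ]
    exact hGm.coeff_natDegree
  have hf0 : ∃ j, f j ≠ 0 := ⟨Fin.last δ, by rw [hflast]; exact one_ne_zero⟩
  have hlv : ∀ i, lv (rnc δ (fun _ => 1) x i) f = G.eval (algebraMap k L (x i)) := by
    intro i
    rw [lv_one, hfG]
  have hcnt : ∀ P : Place k L, (m : ℤ) ∣ cnt P H := by
    intro P
    obtain ⟨j, hj, hj2⟩ := exists_good P hH hdeg (fun i : Fin (d + 1) =>
      x (Fin.castLE (by omega) i)) (fun a b hab => Fin.castLE_injective _ (hx hab))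
    rw [← hj2]
    obtain ⟨w, hw⟩ := hpow (Fin.castLE (by omega) j)
    rw [← hw, P.ord_pow]
    exact Dvd.intro _ rfl
  let mm : Fin q → ℕ := fun i => if i ∈ I1 then 2 else 1
  have hmm : ∑ i, (1 - 1 / (mm i : ℝ)) = (I1.card : ℝ) / 2 := by
    have h1 : ∀ i, (1 - 1 / (mm i : ℝ)) = if i ∈ I1 then (1 / 2 : ℝ) else 0 := by
      intro i
      simp only [mm]
      split_ifs <;> norm_num
    rw [Finset.sum_congr rfl fun i _ => h1 i, Finset.sum_ite_mem, Finset.univ_inter,
      Finset.sum_const, nsmul_eq_mul]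
    ring
  have hI1 : 4 * δ + 1 ≤ I1.card := by omega
  have hI1' : (4 * (δ : ℝ) + 1) ≤ (I1.card : ℝ) := by exact_mod_cast hI1
  have hine := rnc_ineq (k := k) (L := L) (u := fun _ : Fin q => (1 : k)) (v := x)
    (fun i j hij h => by
      rw [one_mul, one_mul] at h
      exact hij (hx h.symm)) (m := mm) (fun i => by simp only [mm]; split_ifs <;> norm_num) (n := δ)
    (by rw [hmm]; linarith) (f := f) (by rw [hflast]; exact one_ne_zero)
    (by rw [hfG]; exact hGsep.squarefree) (fun i => by rw [hlv]; exact hGx i) (by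
      intro P i hlt
      rw [hlv] at hlt ⊢
      by_cases hi : i ∈ I1
      · have h1 := ram_gen hm P hu hT hHT hem
          (Finset.filter_subset (fun p => ∀ i, p.eval (algebraMap k L (x i)) ≠ 0) T)
          (Finset.mem_filter.1 hi).2 (hcnt P) (by
            obtain ⟨w, hw⟩ := hpow i
            rw [← hw, P.ord_pow]
            exact Dvd.intro _ rfl) (fun p hp hp1 => by
              have h2 : ∃ j, p.eval (algebraMap k L (x j)) = 0 := by
                by_contra hcon
                push Not at hcon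
                exact hp1 (Finset.mem_filter.2 ⟨hp, hcon⟩)
              obtain ⟨j, hj⟩ := h2
              rw [eq_X_sub_C (hT p hp).1 (hT p hp).2.1 hj]
              refine ct_X_sub_C P ?_
              intro hij
              apply (Finset.mem_filter.1 hi).2
              obtain ⟨r, hr⟩ := (hT p hp).2.2.1
              rw [hr, Polynomial.eval_mul, hij, hj, zero_mul])
        rw [← hT1, ← hG] at h1
        have h2 : cnt P G = pord P f := by
          rw [← hfG]
          exact pord_eq_cnt P hf0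
        unfold BV.ct at h1
        rw [h2] at h1
        have h3 : mm i = 2 := if_pos hi
        rw [h3]
        push_cast
        omega
      · have h3 : mm i = 1 := if_neg hi
        rw [h3]
        push_cast
        omega)
  have hpht : pht k f ≤ B0 := by
    rw [hmm] at hine
    have h0 : (0 : ℝ) ≤ (pht k f : ℝ) := by
      exact_mod_cast pht_nonneg' (k := k) hf0
    have h1 : (1 / 2 : ℝ) * (pht k f : ℝ) ≤ δ * ((max (canDeg k L) 0 : ℤ) : ℝ) := by
      refine le_trans (mul_le_mul_of_nonneg_right ?_ h0) hine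
      linarith
    have h2 : (δ : ℝ) ≤ d := by exact_mod_cast (show δ ≤ d by omega)
    have h3 : (0 : ℝ) ≤ ((max (canDeg k L) 0 : ℤ) : ℝ) := by
      exact_mod_cast le_max_right _ _
    have h4 : (pht k f : ℝ) ≤ ((2 * d * max (canDeg k L) 0 : ℤ) : ℝ) := by
      push_cast at h1 h3 ⊢
      nlinarith
    rw [hB0]
    exact_mod_cast h4
  -- the factors
  have hcoef : ∀ p ∈ T, ∀ i, hgt k (p.coeff i) ≤ B0 := by
    intro p hp i
    by_cases h : ∀ i, p.eval (algebraMap k L (x i)) ≠ 0
    · refine (hgt_coeff_le hflast (by rw [hfG]; exact hGm) (hT p hp).2.1 ?_ i).trans hpht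
      rw [hfG]
      exact Finset.dvd_prod_of_mem _ (Finset.mem_filter.2 ⟨hp, h⟩)
    · push Not at h
      obtain ⟨j, hj⟩ := h
      rw [eq_X_sub_C (hT p hp).1 (hT p hp).2.1 hj, coeff_sub, coeff_X, coeff_C]
      refine le_trans (le_of_eq ?_) hB00
      have h5 : ∃ c : k, ((if 1 = i then (1 : L) else 0) - if i = 0 then algebraMap k L (x j)
          else 0) = algebraMap k L c := by
        refine ⟨(if 1 = i then (1 : k) else 0) - if i = 0 then x j else 0, ?_⟩
        rw [map_sub, apply_ite (algebraMap k L), apply_ite (algebraMap k L), map_one, map_zero]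
      obtain ⟨c, hc⟩ := h5
      rw [hc, hgt_const]
  have hpd : ∀ p ∈ T, p.natDegree ≤ d := fun p hp =>
    (Finset.single_le_sum (f := fun p : L[X] => p.natDegree) (fun _ _ => Nat.zero_le _) hp).trans
      hdegT
  have hYm : Y ≤ max Y 0 := le_max_left _ _
  have hval : ∀ p ∈ T, ∀ y : L, hgt k y ≤ Y → hgt k (p.eval y) ≤ B1 := by
    intro p hp y hy
    rw [hB1]
    exact hgt_eval_le (hpd p hp) hB00 (hcoef p hp) (hy.trans hYm)
  have hpe : ∀ p ∈ T, ∀ y, H.eval y ≠ 0 → p.eval y ≠ 0 := by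
    intro p hp y hy h0
    apply hy
    obtain ⟨r, hr⟩ := (hT p hp).2.2.1
    rw [hr, Polynomial.eval_mul, h0, zero_mul]
  have hHe : ∀ y, H.eval y = u * ∏ p ∈ T, p.eval y ^ e p := by
    intro y
    conv_lhs => rw [hHT]
    rw [eval_mul, eval_C, eval_prod]
    simp only [eval_pow]
  have hq1 : H.eval y1 / H.eval y2 = ∏ p ∈ T, (p.eval y1 / p.eval y2) ^ e p := by
    rw [hHe, hHe, mul_div_mul_left _ _ hu, ← Finset.prod_div_distrib]
    exact Finset.prod_congr rfl fun p _ => (div_pow _ _ _).symm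
  rw [hq1]
  refine (hgt_prod_le _ _ fun p hp => pow_ne_zero _ (div_ne_zero (hpe p hp y1 he1)
    (hpe p hp y2 he2))).trans ?_
  have hTc : T.card ≤ d := by
    rw [Finset.card_eq_sum_ones]
    exact (Finset.sum_le_sum fun p hp => (hT p hp).1.natDegree_pos).trans hdegT
  have hepd : ∀ p ∈ T, e p ≤ d := by
    intro p hp
    have h1 := Finset.single_le_sum (f := fun p : L[X] => e p * p.natDegree)
      (fun _ _ => Nat.zero_le _) hp
    have h2 := (hT p hp).1.natDegree_pos
    exact (Nat.le_mul_of_pos_right _ h2).trans (h1.trans hdegT')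
  calc ∑ p ∈ T, hgt k ((p.eval y1 / p.eval y2) ^ e p) ≤ ∑ _p ∈ T, (d : ℤ) * (2 * B1) := by
        refine Finset.sum_le_sum fun p hp => ?_
        refine (hgt_pow_le _ _).trans ?_
        have h1 : hgt k (p.eval y1 / p.eval y2) ≤ 2 * B1 := by
          rw [div_eq_mul_inv]
          refine (hgt_mul_le _ _).trans ?_
          rw [hgt_inv]
          have := hval p hp y1 hy1
          have := hval p hp y2 hy2
          linarith
        have h2 : ((e p : ℕ) : ℤ) ≤ d := by exact_mod_cast hepd p hp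
        exact mul_le_mul h2 h1 (hgt_nonneg _) (by positivity)
    _ = (T.card : ℤ) * (d * (2 * B1)) := by rw [Finset.sum_const, nsmul_eq_mul]
    _ ≤ (d : ℤ) * (d * (2 * B1)) := by
        refine mul_le_mul_of_nonneg_right ?_ (by positivity)
        exact_mod_cast hTc

theorem hgt_bound {m d q : ℕ} (hm : 2 ≤ m) (hq : 4 * d < q) (Y : ℤ) : ∃ B : ℤ, 0 ≤ B ∧
    ∀ (x : Fin q → k), Function.Injective x → ∀ H : L[X], H ≠ 0 → H.natDegree ≤ d →
      (∀ i, ∃ w, w ^ m = H.eval (algebraMap k L (x i))) →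
      (∀ p : L[X], Irreducible p → ¬ p ^ m ∣ H) →
      ∀ y1 y2 : L, hgt k y1 ≤ Y → hgt k y2 ≤ Y → hgt k (H.eval y1 / H.eval y2) ≤ B :=
  ⟨hbd d (canDeg k L) Y, hbd_nonneg _ _ _, fun x hx H hH hdeg hpow hmult y1 y2 h1 h2 =>
    hgt_bound_lin hm hq Y x hx H hH hdeg hpow hmult y1 y2 h1 h2⟩

end Pool.Agent.Y190.GN
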