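import Pool.Agent.Y190.GN.Seq
import Pool.Agent.Y190.BV.Spec

/-!
Finiteness of the points over a function field that do not lie on lines.
-/

set_option autoImplicit false

open Polynomial FF Pool.Agent.W603.LV Pool.Agent.W603.PV Pool.Agent.W602.GT Pool.Agent.Y190.BV

namespace Pool.Agent.Y190.GN

/-- The point lies on a line that is contained in the projective variety `{F = 0}`. -/
def OnLine {K : Type} [Field K] {n : ℕ} {ι : Type} (F : ι → MvPolynomial (Fin (n + 1)) K)
    (x : Fin (n + 1) → K) : Prop :=
  ∃ p q : Fin (n + 1) → K, Line F p q ∧ ∃ c c' : K, x = c • p + c' • q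

theorem free_of_deg {L : Type} [Field L] {m : ℕ} {H : L[X]} (hH : H ≠ 0) (hd : H.natDegree < m)
    (p : L[X]) (hp : Irreducible p) : ¬ p ^ m ∣ H := by
  intro h
  have h1 := Polynomial.natDegree_le_of_dvd h hH
  rw [Polynomial.natDegree_pow] at h1
  have h2 := hp.natDegree_pos
  have h3 : m ≤ m * p.natDegree := Nat.le_mul_of_pos_right _ h2
  omega

section

variable {k L : Type} [Field k] [IsAlgClosed k] [CharZero k] [Field L] [Algebra k L] [IsFF k L]

/-- the set of the vectors -/
def VSet {r : ℕ} (m d : ℕ) (y : Fin (r + 1) → L) (j0 : Fin (r + 1)) : Set (Fin (r + 1) → L) :=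
  {z | z j0 = 1 ∧ ∃ H : L[X], H.natDegree ≤ d ∧ (∀ p : L[X], Irreducible p → ¬ p ^ m ∣ H) ∧
    ∀ j, z j ^ m = H.eval (y j)}

theorem fin_free' {m d r : ℕ} (hm : 2 ≤ m) (hdm : d < 2 * m)
    {y : Fin (r + 1) → L} (hy : Function.Injective y) (Cn : Finset (Fin (r + 1)))
    (hC : 4 * d < Cn.card) (hCc : ∀ j ∈ Cn, ∃ c : k, y j = algebraMap k L c)
    (S : Finset (Fin (r + 1))) (hS : d ≤ S.card) (hSm : ∀ j ∈ S, ∀ c : k, y j ≠ algebraMap k L c)
    (j0 : Fin (r + 1)) : (VSet m d y j0).Finite := by
  classical
  choose! c hc using hCc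
  refine fin_free (k := k) (q := Cn.card) hm hdm hC hy
    (x := fun i => c ((Cn.equivFin.symm i : Cn) : Fin (r + 1))) ?_ (fun i => ⟨_, hc _ (Cn.equivFin.symm i).2⟩)
    ⟨S, hS, hSm⟩ j0
  intro i j hij
  have h1 := hc _ (Cn.equivFin.symm i).2
  have h2 := hc _ (Cn.equivFin.symm j).2
  simp only at hij
  rw [hij, ← h2] at h1
  exact Cn.equivFin.symm.injective (Subtype.ext (hy h1))

/-- the vectors with a vanishing coordinate -/
theorem fin_node {m n r : ℕ} (hm : 2 ≤ m) (hnm : n < 2 * m)
    {a : Fin (r + 2) → L} (ha : Function.Injective a) (Cn : Finset (Fin (r + 2)))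
    (hC : 4 * n < Cn.card) (hCc : ∀ j ∈ Cn, ∃ c : k, a j = algebraMap k L c)
    (S : Finset (Fin (r + 2))) (hS : n ≤ S.card) (hSm : ∀ j ∈ S, ∀ c : k, a j ≠ algebraMap k L c)
    (j0 i0 : Fin (r + 2)) (hmn : m ≤ n) :
    {y : Fin (r + 2) → L | y j0 = 1 ∧ ∃ Q : L[X], Q ≠ 0 ∧ Q.natDegree ≤ n - m ∧
      ∀ j, y j ^ m = (a j - a i0) ^ m * Q.eval (a j)}.Finite := by
  classical
  by_cases hji : j0 = i0
  · refine Set.Finite.subset Set.finite_empty ?_
    rintro y ⟨h1, Q, -, -, h2⟩
    have h3 := h2 j0
    rw [h1, hji, sub_self, zero_pow (by omega), one_pow, zero_mul] at h3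
    exact one_ne_zero h3
  obtain ⟨j0', hj0'⟩ := Fin.exists_succAbove_eq hji
  have hinj : Function.Injective fun j => a (i0.succAbove j) :=
    ha.comp Fin.succAbove_right_injective
  let C' : Finset (Fin (r + 1)) := Finset.univ.filter fun j => i0.succAbove j ∈ Cn
  let S' : Finset (Fin (r + 1)) := Finset.univ.filter fun j => i0.succAbove j ∈ S
  have hcard : ∀ A : Finset (Fin (r + 2)),
      A.card ≤ (Finset.univ.filter fun j : Fin (r + 1) => i0.succAbove j ∈ A).card + 1 := by
    intro A
    have h1 : A ⊆ insert i0 ((Finset.univ.filter fun j : Fin (r + 1) =>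
        i0.succAbove j ∈ A).image i0.succAbove) := by
      intro j hj
      by_cases h : j = i0
      · exact Finset.mem_insert.2 (Or.inl h)
      · obtain ⟨j', hj'⟩ := Fin.exists_succAbove_eq h
        refine Finset.mem_insert_of_mem (Finset.mem_image.2 ⟨j', ?_, hj'⟩)
        rw [Finset.mem_filter]
        exact ⟨Finset.mem_univ _, by rw [hj']; exact hj⟩
    refine (Finset.card_le_card h1).trans ((Finset.card_insert_le _ _).trans ?_)
    exact Nat.add_le_add_right Finset.card_image_le 1
  have hC' : Cn.card ≤ C'.card + 1 := hcard Cn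
  have hS' : S.card ≤ S'.card + 1 := hcard S
  have hfin := fin_free' (k := k) (m := m) (d := n - m) hm (by omega) hinj C' (by omega)
    (fun j hj => hCc _ (Finset.mem_filter.1 hj).2) S' (by omega)
    (fun j hj => hSm _ (Finset.mem_filter.1 hj).2) j0'
  have hc0 : a j0 - a i0 ≠ 0 := sub_ne_zero.2 fun h => hji (ha h)
  refine (hfin.image fun z : Fin (r + 1) → L => (Fin.insertNth i0 (0 : L)
    fun j => z j * (a (i0.succAbove j) - a i0) / (a j0 - a i0) : Fin (r + 2) → L)).subset ?_
  rintro y ⟨h1, Q, hQ0, hQd, h2⟩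
  refine ⟨fun j => y (i0.succAbove j) * (a j0 - a i0) / (a (i0.succAbove j) - a i0), ?_, ?_⟩
  · have hne : ∀ j, a (i0.succAbove j) - a i0 ≠ 0 := fun j =>
      sub_ne_zero.2 fun h => Fin.succAbove_ne i0 j (ha h)
    refine ⟨?_, C ((a j0 - a i0) ^ m) * Q, ?_, ?_, ?_⟩
    · simp only
      rw [hj0', h1, one_mul, div_self hc0]
    · exact (natDegree_C_mul_le _ _).trans hQd
    · refine free_of_deg (mul_ne_zero (by rw [Ne, C_eq_zero]; exact pow_ne_zero _ hc0) hQ0) ?_
      have := (natDegree_C_mul_le ((a j0 - a i0) ^ m) Q).trans hQd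
      omega
    · intro j
      simp only
      rw [div_pow, mul_pow, h2, eval_mul, eval_C]
      have := pow_ne_zero m (hne j)
      field_simp
  · simp only
    have hy0 : y i0 = 0 := by
      have h3 := h2 i0
      rw [sub_self, zero_pow (by omega), zero_mul] at h3
      exact pow_eq_zero_iff (by omega) |>.1 h3
    funext i
    by_cases hi : i = i0
    · rw [hi, Fin.insertNth_apply_same, hy0]
    · obtain ⟨j, rfl⟩ := Fin.exists_succAbove_eq hi
      rw [Fin.insertNth_apply_succAbove]
      have hne : a (i0.succAbove j) - a i0 ≠ 0 :=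
        sub_ne_zero.2 fun h => Fin.succAbove_ne i0 j (ha h)
      field_simp

end

section line

variable {L K : Type} [Field L] [Field K] [Algebra L K] [Infinite K] {N : ℕ} {ι : Type}

/-- the points of a line -/
theorem line_of_infinite {F : ι → MvPolynomial (Fin (N + 1)) K} (hF : ∀ e, IsForm (F e))
    {a z : Fin (N + 1) → K} (ha : Function.Injective a) {i j : Fin (N + 1)} (hij : i ≠ j)
    (hi : z i ≠ 0) (hj : z j ≠ 0) {A : Set K} (hA : A.Infinite)
    (h : ∀ t ∈ A, ∀ e, val (fun i => (a i - t) * z i) (F e) = 0) :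
    Line F (fun i => a i * z i) z := by
  classical
  have hpoly : ∀ e, (MvPolynomial.aeval (fun i => (Polynomial.C (a i) - Polynomial.X) *
      Polynomial.C (z i)) (F e) : K[X]) = 0 := by
    intro e
    apply Polynomial.eq_zero_of_infinite_isRoot
    refine hA.mono fun t ht => ?_
    have h1 := h t ht e
    change Polynomial.eval t _ = 0
    rw [← h1]
    unfold val
    have h2 : (Polynomial.aeval t : K[X] →ₐ[K] K).comp (MvPolynomial.aeval
        (fun i => (Polynomial.C (a i) - Polynomial.X) * Polynomial.C (z i))) =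
        MvPolynomial.aeval (fun i => (a i - t) * z i) := by
      apply MvPolynomial.algHom_ext
      intro i
      simp
    rw [← h2, AlgHom.comp_apply, Polynomial.coe_aeval_eq_eval]
  have hall : ∀ e t, val (fun i => (a i - t) * z i) (F e) = 0 := by
    intro e t
    have h1 := congrArg (Polynomial.eval t) (hpoly e)
    rw [Polynomial.eval_zero] at h1
    rw [← h1]
    unfold val
    have h2 : (Polynomial.aeval t : K[X] →ₐ[K] K).comp (MvPolynomial.aeval
        (fun i => (Polynomial.C (a i) - Polynomial.X) * Polynomial.C (z i))) =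
        MvPolynomial.aeval (fun i => (a i - t) * z i) := by
      apply MvPolynomial.algHom_ext
      intro i
      simp
    rw [← h2, AlgHom.comp_apply, Polynomial.coe_aeval_eq_eval]
  refine ⟨?_, ?_⟩
  · rw [LinearIndependent.pair_iff]
    intro s t hst
    have h1 := congrFun hst i
    have h2 := congrFun hst j
    simp only [Pi.add_apply, Pi.smul_apply, smul_eq_mul, Pi.zero_apply] at h1 h2
    have h3 : s * a i + t = 0 := by
      apply (mul_eq_zero.1 (show (s * a i + t) * z i = 0 by linear_combination h1)).resolve_right hi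
    have h4 : s * a j + t = 0 := by
      apply (mul_eq_zero.1 (show (s * a j + t) * z j = 0 by linear_combination h2)).resolve_right hj
    have h5 : s = 0 := by
      apply (mul_eq_zero.1 (show s * (a i - a j) = 0 by linear_combination h3 - h4)).resolve_right
      exact sub_ne_zero.2 fun h => hij (ha h)
    refine ⟨h5, ?_⟩
    rw [h5, zero_mul, zero_add] at h3
    exact h3
  · intro c c' e
    obtain ⟨d, hd⟩ := hF e
    have hne : ∀ c c' : K, c ≠ 0 →
        val (c • (fun i => a i * z i) + c' • z) (F e) = 0 := by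
      intro c c' hc
      have e1 : c • (fun i => a i * z i) + c' • z = fun i => c * ((a i - (-c' / c)) * z i) := by
        funext i
        simp only [Pi.add_apply, Pi.smul_apply, smul_eq_mul]
        field_simp
        ring
      rw [e1]
      unfold val
      have h2 := Pool.Agent.H159R3.Lang.aeval_smul_homog hd c
        (fun i => (a i - (-c' / c)) * z i)
      have h3 := hall e (-c' / c)
      unfold val at h3
      rw [h3, mul_zero] at h2
      rw [← h2]
      rfl
    by_cases hc : c = 0
    · -- a polynomial in `c`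
      have hp : (MvPolynomial.aeval (fun i => Polynomial.X * Polynomial.C (a i * z i) +
          Polynomial.C (c' * z i)) (F e) : K[X]) = 0 := by
        apply Polynomial.eq_zero_of_infinite_isRoot
        refine Set.Infinite.mono ?_ (Set.Finite.infinite_compl (Set.finite_singleton (0 : K)))
        intro t ht
        have h1 := hne t c' ht
        change Polynomial.eval t _ = 0
        rw [← h1]
        unfold val
        have h2 : (Polynomial.aeval t : K[X] →ₐ[K] K).comp (MvPolynomial.aeval
            (fun i => Polynomial.X * Polynomial.C (a i * z i) + Polynomial.C (c' * z i))) =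
            MvPolynomial.aeval (t • (fun i => a i * z i) + c' • z) := by
          apply MvPolynomial.algHom_ext
          intro i
          simp
        rw [← h2, AlgHom.comp_apply, Polynomial.coe_aeval_eq_eval]
      have h1 := congrArg (Polynomial.eval (0 : K)) hp
      rw [Polynomial.eval_zero] at h1
      subst hc
      refine Eq.trans ?_ h1
      unfold val
      have h2 : (Polynomial.aeval (0 : K) : K[X] →ₐ[K] K).comp (MvPolynomial.aeval
          (fun i => Polynomial.X * Polynomial.C (a i * z i) + Polynomial.C (c' * z i))) =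
          MvPolynomial.aeval ((0 : K) • (fun i => a i * z i) + c' • z) := by
        apply MvPolynomial.algHom_ext
        intro i
        simp
      rw [← h2, AlgHom.comp_apply, Polynomial.coe_aeval_eq_eval]
    · exact hne c c' hc

end line

end Pool.Agent.Y190.GN
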