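import Pool.Agent.Y216.RncD
import Pool.Agent.W602.RG.Defs

/-!
The resultant of a polynomial and its derivative with respect to a derivation that preserves or
lowers by one the orders at all places: the local and the global estimate.
-/

set_option autoImplicit false

open Polynomial FF Pool.Agent.W603.LV Pool.Agent.W603.PV Pool.Agent.W601.VF Pool.Agent.Y216
  Pool.Agent.W602.RG

namespace Pool.Agent.Y190.GN

variable {k : Type} [Field k] [IsAlgClosed k] [CharZero k] {M : Type} [Field M] {L : Type} [Field L]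
  [Algebra k L] [Algebra M L] [IsFF k L] {n q : ℕ}

omit [IsAlgClosed k] [CharZero k] [IsFF k L] in
theorem ge_reg {D : Derivation M L L} {P : Place k L} (hreg : Reg0 D P ∨ Mov D P) {x : L}
    (hx : Ge P 0 x) : Ge P 0 (D x) := by
  by_cases h0 : D x = 0
  · exact Or.inl h0
  · right
    rcases hx with rfl | hx
    · exact absurd D.map_zero h0
    rcases hreg with h | h
    · exact hx.trans (h x h0)
    · exact h.2.1 x hx h0

omit [IsAlgClosed k] [CharZero k] [IsFF k L] in
theorem lv_der' {a : Fin (n + 1) → k} {D : Derivation M L L}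
    (hD : ∀ j, D (algebraMap k L (a j)) = 0) (x : Fin (n + 1) → L) :
    lv a (fun j => D (x j)) = D (lv a x) := by
  unfold lv
  rw [map_sum]
  refine Finset.sum_congr rfl fun j _ => ?_
  rw [D.leibniz, hD, smul_zero, add_zero, smul_eq_mul]

omit [IsAlgClosed k] [CharZero k] [IsFF k L] in
theorem der_rnc {u v : Fin q → k} {D : Derivation M L L}
    (hu : ∀ i, D (algebraMap k L (u i)) = 0) (hv : ∀ i, D (algebraMap k L (v i)) = 0) (i : Fin q)
    (l : Fin (n + 1)) : D (algebraMap k L (rnc n u v i l)) = 0 := by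
  unfold rnc
  rw [map_mul, map_pow, map_pow, D.leibniz, D.leibniz_pow, D.leibniz_pow, hu, hv]
  simp

/-- The local estimate. -/
theorem rig_local (P : Place k L) {D : Derivation M L L} (hreg : Reg0 D P ∨ Mov D P)
    {f : Fin (n + 1) → L} (hf : ∃ j, f j ≠ 0) {u v : Fin q → k}
    (hDu : ∀ i, D (algebraMap k L (u i)) = 0) (hDv : ∀ i, D (algebraMap k L (v i)) = 0)
    (huv : ∀ i j, i ≠ j → u i * v j ≠ u j * v i)
    (hq : n + n ≤ q) (hne : ∀ i, lv (rnc n u v i) f ≠ 0)
    (hR : resultant (pol f) (pol fun j => D (f j)) n n ≠ 0) {o : Fin q → ℤ} (ho : ∀ i, 0 ≤ o i)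
    (ho1 : ∀ i, o i ≤ P.ord (lv (rnc n u v i) f) - pord P f)
    (ho2 : ∀ i, 0 < o i → ¬ Reg0 D P → o i ≤ P.ord (lv (rnc n u v i) f) - pord P f - 1) :
    2 * n * pord P f + ∑ i, o i ≤ P.ord (resultant (pol f) (pol fun j => D (f j)) n n) := by
  classical
  set π := unif P with hπd
  have hπ : P.ord π = 1 := ord_unif P
  have hπ0 : π ≠ 0 := by
    intro h
    rw [h, P.ord_zero] at hπ; omega
  set s := pord P f with hs
  set t := π ^ s with ht
  have ht0 : t ≠ 0 := zpow_ne_zero _ hπ0
  have hto : P.ord t = s := by rw [ht, P.ord_zpow, hπ, mul_one]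
  obtain ⟨g, hg⟩ : ∃ g : Fin (n + 1) → L, g = fun j => t⁻¹ * f j := ⟨_, rfl⟩
  have hfg : f = fun j => t * g j := by
    funext j
    rw [hg]
    simp only
    rw [mul_inv_cancel_left₀ ht0]
  have hg0 : ∀ j, Ge P 0 (g j) := by
    intro j
    apply Ge.of_mul' (h := t) (m := s) ht0 hto
    rw [zero_add]
    have : t * g j = f j := by rw [hfg]
    rw [this]
    exact ge_pord P f j
  have hv0 : ∀ j, Ge P 0 (D (g j)) := fun j => ge_reg hreg (hg0 j)
  have hg1 : ¬ ∀ j, Ge P 1 (g j) := by
    intro hall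
    obtain ⟨j, hj, hjo⟩ := exists_pord P hf
    have hgj : g j ≠ 0 := by
      rw [hg]
      exact mul_ne_zero (inv_ne_zero ht0) hj
    have h2 := (hall j).resolve_left hgj
    have h3 : P.ord (f j) = s + P.ord (g j) := by
      have e : f j = t * g j := by conv_lhs => rw [hfg]
      rw [e, P.ord_mul ht0 hgj, hto]
    omega
  -- the resultant
  have e3 : resultant (pol f) (pol fun j => D (f j)) n n =
      t ^ n * (t * 1) ^ n * resultant (pol g) (pol fun j => D (g j)) n n := by
    rw [← res_scale g (fun j => D (g j)) t 1 (D t * t⁻¹)]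
    congr 2
    funext j
    conv_lhs => rw [hfg]
    rw [D.leibniz]
    simp only [smul_eq_mul]
    field_simp
  rw [mul_one] at e3
  obtain ⟨Z, hZ⟩ : ∃ Z, Z = resultant (pol g) (pol fun j => D (g j)) n n := ⟨_, rfl⟩
  rw [← hZ] at e3
  have hZ0 : Z ≠ 0 := by
    intro h0
    rw [h0, mul_zero] at e3
    exact hR e3
  have e5 := congrArg P.ord e3
  rw [P.ord_mul (mul_ne_zero (pow_ne_zero _ ht0) (pow_ne_zero _ ht0)) hZ0,
    P.ord_mul (pow_ne_zero _ ht0) (pow_ne_zero _ ht0), P.ord_pow, hto] at e5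
  -- the values of the linear forms
  have hℓg : ∀ i, lv (rnc n u v i) f = t * lv (rnc n u v i) g := by
    intro i
    conv_lhs => rw [hfg]
    exact lv_scale _ t g
  have hℓg0 : ∀ i, lv (rnc n u v i) g ≠ 0 := fun i h0 => hne i (by rw [hℓg, h0, mul_zero])
  have hℓo : ∀ i, P.ord (lv (rnc n u v i) g) = P.ord (lv (rnc n u v i) f) - s := by
    intro i
    rw [hℓg, P.ord_mul ht0 (hℓg0 i), hto]
    ring
  have hℓge : ∀ i, 0 ≤ P.ord (lv (rnc n u v i) g) := fun i =>
    one_le_of_ge (hℓg0 i) (lv_ge _ hg0)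
  have h1 : ∀ i, Ge P (o i) (lv (rnc n u v i) g) := by
    intro i
    right
    have := hℓo i
    have := ho1 i
    omega
  have h2 : ∀ i, Ge P (o i) (lv (rnc n u v i) fun j => D (g j)) := by
    intro i
    rw [lv_der' (der_rnc hDu hDv i)]
    rcases (ho i).lt_or_eq with h0 | h0
    · by_cases hz : D (lv (rnc n u v i) g) = 0
      · exact Or.inl hz
      · right
        have := hℓo i
        by_cases hr : Reg0 D P
        · have h3 := hr _ hz
          have := ho1 i
          omega
        · have h3 := (hreg.resolve_left hr).1 _ hz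
          have := ho2 i h0 hr
          omega
    · rw [← h0]
      exact ge_reg hreg (Or.inr (hℓge i))
  -- at most `n` of them have zeros
  obtain ⟨J, hJ⟩ : ∃ J : Finset (Fin q), J = Finset.univ.filter fun i => 0 <
    P.ord (lv (rnc n u v i) g) := ⟨_, rfl⟩
  have hJc : J.card ≤ n + n := by
    by_contra hcon
    obtain ⟨T, hTJ, hTc⟩ := Finset.exists_subset_card_eq (s := J) (n := n + 1) (by omega)
    apply hg1
    refine ge_of_indep (A := fun r => rnc n u v (T.orderEmbOfFin hTc r))
      (rnc_genPos huv _ (T.orderEmbOfFin hTc).injective) fun r => ?_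
    right
    have := hTJ (T.orderEmbOfFin_mem hTc r)
    rw [hJ, Finset.mem_filter] at this
    omega
  obtain ⟨J', hJJ', -, hJ'c⟩ := Finset.exists_subsuperset_card_eq (Finset.subset_univ J) hJc
    (by rw [Finset.card_univ, Fintype.card_fin]; exact hq)
  obtain ⟨σ, hσ⟩ : ∃ σ : Fin (n + n) → Fin q, σ = fun r => J'.orderEmbOfFin hJ'c r := ⟨_, rfl⟩
  have hσi : Function.Injective σ := by
    rw [hσ]
    exact (J'.orderEmbOfFin hJ'c).injective
  obtain ⟨W, hW⟩ : ∃ W : Matrix (Fin (n + n)) (Fin (n + n)) L, W = Matrix.projVandermonde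
    (fun r => algebraMap k L (v (σ r))) (fun r => algebraMap k L (u (σ r))) := ⟨_, rfl⟩
  have hWd : W = (algebraMap k L).mapMatrix (Matrix.projVandermonde (fun r => v (σ r))
      (fun r => u (σ r))) := by
    rw [hW]
    exact Matrix.projVandermonde_map (algebraMap k L) _ _
  have hW0 : (Matrix.projVandermonde (fun r => v (σ r)) (fun r => u (σ r))).det ≠ 0 :=
    projVandermonde_ne fun i j hij => by
      have := huv (σ i) (σ j) fun h => hij (hσi h)
      rwa [mul_comm, mul_comm (v (σ i))]
  have hWdet : W.det = algebraMap k L (Matrix.projVandermonde (fun r => v (σ r))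
      (fun r => u (σ r))).det := by
    rw [hWd, RingHom.map_det]
  have hWne : W.det ≠ 0 := by
    rw [hWdet]
    exact (_root_.map_ne_zero _).2 hW0
  have hWo : P.ord W.det = 0 := by
    rw [hWdet]
    exact P.ord_const hW0
  have hGe : Ge P (∑ r, o (σ r)) (W * sylvester (pol g) (pol fun j => D (g j)) n n).det := by
    refine ge_det' P _ _ fun r c => ?_
    rw [Matrix.mul_apply]
    have hrow : ∀ i, W r i = algebraMap k L (v (σ r)) ^ (i : ℕ) *
        algebraMap k L (u (σ r)) ^ ((Fin.rev i : Fin (n + n)) : ℕ) := fun i => by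
      rw [hW, Matrix.projVandermonde_apply]
    simp only [hrow]
    induction c using Fin.addCases with
    | left j =>
      rw [row_left, ← lv_rnc, ← map_pow, ← map_pow, ← map_mul]
      simpa using (Ge.const (P := P) (v (σ r) ^ (j : ℕ) * u (σ r) ^ (n - 1 - j))).mul (h2 (σ r))
    | right j =>
      rw [row_right, ← lv_rnc, ← map_pow, ← map_pow, ← map_mul]
      simpa using (Ge.const (P := P) (v (σ r) ^ (j : ℕ) * u (σ r) ^ (n - 1 - j))).mul (h1 (σ r))
  rw [Matrix.det_mul] at hGe
  have hZd : (sylvester (pol g) (pol fun j => D (g j)) n n).det = Z := hZ.symm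
  rw [hZd] at hGe
  have h6 := hGe.resolve_left (mul_ne_zero hWne hZ0)
  rw [P.ord_mul hWne hZ0, hWo, zero_add] at h6
  have h7 : ∑ r, o (σ r) = ∑ i, o i := by
    have h9 : ∑ r, o (σ r) = ∑ i ∈ Finset.univ.map ⟨σ, hσi⟩, o i := by
      rw [Finset.sum_map]
      rfl
    rw [h9]
    refine Finset.sum_subset (Finset.subset_univ _) fun i _ hi => ?_
    have hiJ : i ∉ J := by
      intro hiJ
      apply hi
      have h8 := hJJ' hiJ
      rw [Finset.mem_map]
      have h10 : i ∈ Set.range (J'.orderEmbOfFin hJ'c) := by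
        rw [Finset.range_orderEmbOfFin]
        exact h8
      obtain ⟨r, hr⟩ := h10
      refine ⟨r, Finset.mem_univ _, ?_⟩
      have h11 : σ r = J'.orderEmbOfFin hJ'c r := by rw [hσ]
      exact h11.trans hr
    rw [hJ, Finset.mem_filter, not_and, not_lt] at hiJ
    have h8 := hiJ (Finset.mem_univ _)
    have := hℓo i
    have := ho1 i
    have := ho i
    omega
  rw [h7] at h6
  nlinarith

/-- The global estimate: if there are many hyperplanes with high contact, the height vanishes. -/
theorem rig_glob {D : Derivation M L L} (hreg : ∀ P : Place k L, Reg0 D P ∨ Mov D P)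
    {f : Fin (n + 1) → L} (hf : ∃ j, f j ≠ 0) {u v : Fin q → k}
    (hDu : ∀ i, D (algebraMap k L (u i)) = 0) (hDv : ∀ i, D (algebraMap k L (v i)) = 0)
    (huv : ∀ i j, i ≠ j → u i * v j ≠ u j * v i) (hne : ∀ i, lv (rnc n u v i) f ≠ 0)
    (hR : resultant (pol f) (pol fun j => D (f j)) n n ≠ 0) (s : Finset (Fin q))
    (hs : 4 * n < s.card)
    (hc : ∀ (P : Place k L), ∀ i ∈ s, pord P f < P.ord (lv (rnc n u v i) f) → ¬ Reg0 D P →
      pord P f + 2 ≤ P.ord (lv (rnc n u v i) f)) : pht k f ≤ 0 := by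
  classical
  have hqs : s.card ≤ q := by
    have := Finset.card_le_univ s
    rwa [Fintype.card_fin] at this
  obtain ⟨W, hW⟩ : ∃ W, W = resultant (pol f) (pol fun j => D (f j)) n n := ⟨_, rfl⟩
  -- the exponents
  let c : Place k L → Fin q → ℤ := fun P i => P.ord (lv (rnc n u v i) f) - pord P f
  have hc0 : ∀ P i, 0 ≤ c P i := fun P i => by
    have : pord P f ≤ P.ord (lv (rnc n u v i) f) :=
      one_le_of_ge (hne i) (lv_ge (rnc n u v i) fun l => ge_pord P f l)
    exact sub_nonneg.2 this
  let o : Place k L → Fin q → ℤ := fun P i =>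
    if i ∈ s then (if Reg0 D P then c P i else max (c P i - 1) 0) else 0
  have ho0 : ∀ P i, 0 ≤ o P i := by
    intro P i
    simp only [o]
    split_ifs
    · exact hc0 P i
    · exact le_max_right _ _
    · exact le_rfl
  have ho1 : ∀ P i, o P i ≤ c P i := by
    intro P i
    have := hc0 P i
    simp only [o]
    split_ifs
    · exact le_rfl
    · exact max_le (by omega) this
    · exact this
  have ho2 : ∀ P i, 0 < o P i → ¬ Reg0 D P → o P i ≤ c P i - 1 := by
    intro P i h1 h2
    simp only [o, if_neg h2] at h1 ⊢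
    split_ifs at h1 ⊢
    · rcases lt_max_iff.1 h1 with h | h
      · exact max_le le_rfl h.le
      · exact absurd h (lt_irrefl _)
    · exact absurd h1 (lt_irrefl _)
  have ho3 : ∀ P, ∀ i ∈ s, c P i ≤ 2 * o P i := by
    intro P i hi
    have h0 := hc0 P i
    simp only [o, if_pos hi]
    split_ifs with h
    · omega
    · rcases h0.lt_or_eq with h1 | h1
      · have h2 := hc P i hi (by simp only [c] at h1; omega) h
        have h3 : 2 ≤ c P i := by simp only [c]; omega
        have h4 := le_max_left (c P i - 1) 0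
        omega
      · have h4 := le_max_right (c P i - 1) 0
        omega
  have hloc : ∀ P : Place k L, 2 * n * pord P f + ∑ i, o P i ≤ P.ord W := fun P => by
    rw [hW]
    exact rig_local P (hreg P) hf hDu hDv huv (by omega) hne hR (ho0 P) (ho1 P) (ho2 P)
  obtain ⟨T1, hT1⟩ := exists_supp (k := k) Finset.univ f
  obtain ⟨T2, hT2⟩ := exists_supp (k := k) Finset.univ fun i => lv (rnc n u v i) f
  obtain ⟨T3, hT3⟩ := exists_supp (k := k) (Finset.univ : Finset (Fin 1)) ![W]
  set T : Finset (Place k L) := T1 ∪ T2 ∪ T3 with hT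
  have hTp : ∀ P, pord P f ≠ 0 → P ∈ T := by
    intro P hP
    obtain ⟨j, _, hj⟩ := exists_pord P hf
    rw [← hj] at hP
    have := hT1 j (Finset.mem_univ _) P hP
    simp [hT, this]
  have hTl : ∀ i, ∀ P : Place k L, P.ord (lv (rnc n u v i) f) ≠ 0 → P ∈ T := by
    intro i P hP
    have := hT2 i (Finset.mem_univ _) P hP
    simp [hT, this]
  have hTW : ∀ P : Place k L, P.ord W ≠ 0 → P ∈ T := by
    intro P hP
    have := hT3 0 (Finset.mem_univ _) P hP
    simp [hT, this]
  have hs4 : ∑ P ∈ T, pord P f = - pht k f := by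
    unfold pht
    rw [neg_neg, finsum_eq_sum_of_support_subset (s := T)]
    intro P hP
    exact Finset.mem_coe.2 (hTp P hP)
  have hsa : ∀ i, ∑ P ∈ T, c P i = pht k f := by
    intro i
    simp only [c]
    rw [Finset.sum_sub_distrib, hs4, sum_ord_finset _ T (hTl i)]
    ring
  have h1 := Finset.sum_le_sum fun P (_ : P ∈ T) => hloc P
  rw [sum_ord_finset W T hTW, Finset.sum_add_distrib, ← Finset.mul_sum, hs4] at h1
  have h2 : (s.card : ℤ) * pht k f ≤ 2 * ∑ P ∈ T, ∑ i, o P i := by
    have h3 : (s.card : ℤ) * pht k f = ∑ P ∈ T, ∑ i ∈ s, c P i := by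
      rw [Finset.sum_comm, Finset.sum_congr rfl fun i _ => hsa i, Finset.sum_const, nsmul_eq_mul]
    rw [h3, Finset.mul_sum]
    refine Finset.sum_le_sum fun P _ => ?_
    rw [Finset.mul_sum]
    calc ∑ i ∈ s, c P i ≤ ∑ i ∈ s, 2 * o P i := Finset.sum_le_sum fun i hi => ho3 P i hi
      _ ≤ ∑ i, 2 * o P i := Finset.sum_le_sum_of_subset_of_nonneg (Finset.subset_univ _)
          fun i _ _ => by have := ho0 P i; omega
  by_contra hcon
  push Not at hcon
  have h4 : ((4 * n + 1 : ℕ) : ℤ) ≤ (s.card : ℤ) := by exact_mod_cast hs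
  push_cast at h4
  nlinarith

end Pool.Agent.Y190.GN
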