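import Pool.Agent.Y190.GN.Rig1
import Pool.Agent.Y190.BV.Rad

/-!
The structure of the polynomials whose values at many constants are `m`-th powers, with respect to a
derivation of the constants.
-/

set_option autoImplicit false

open Polynomial FF Pool.Agent.W603.LV Pool.Agent.W603.PV Pool.Agent.Y216 Pool.Agent.W602.RG
  Pool.Agent.Y190.BV

namespace Pool.Agent.Y190.GN

section cont

variable {k : Type} [Field k] {L : Type} [Field L] [Algebra k L]

theorem pord_eq_cnt (P : Place k L) {n : ℕ} {f : Fin (n + 1) → L} (hf : ∃ j, f j ≠ 0) :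
    cnt P (pol f) = pord P f := by
  apply cnt_unique
  · intro i
    by_cases hi : i < n + 1
    · rw [coeff_pol_lt _ hi]
      exact ge_pord P f _
    · rw [coeff_pol_ge _ (by omega)]
      exact Ge.zero
  · obtain ⟨j, hj, hj2⟩ := exists_pord P hf
    exact ⟨(j : ℕ), by rw [coeff_pol]; exact hj, by rw [coeff_pol]; exact hj2⟩

theorem lv_one {n q : ℕ} (x : Fin q → k) (i : Fin q) (f : Fin (n + 1) → L) :
    lv (rnc n (fun _ => 1) x i) f = (pol f).eval (algebraMap k L (x i)) := by
  rw [lv_rnc]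
  unfold bev pol
  rw [eval_finsetSum]
  refine Finset.sum_congr rfl fun l _ => ?_
  rw [eval_mul, eval_C, eval_pow, eval_X, map_one, one_pow, one_mul, mul_comm]

/-- the contact of the product of some of the factors -/
theorem ram_gen [Infinite k] {m : ℕ} (hm : 2 ≤ m) {H : L[X]} (P : Place k L)
    {T T1 : Finset L[X]} {e : L[X] → ℕ} {u : L} (hu : u ≠ 0)
    (hT : ∀ p ∈ T, Irreducible p ∧ p.Monic ∧ p ∣ H ∧ 1 ≤ e p ∧ p ^ (e p) ∣ H)
    (hHT : H = C u * ∏ p ∈ T, p ^ (e p)) (hem : ∀ p ∈ T, e p < m) (hT1 : T1 ⊆ T) {x : k}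
    (hx : H.eval (algebraMap k L x) ≠ 0) (hcnt : (m : ℤ) ∣ cnt P H)
    (hord : (m : ℤ) ∣ P.ord (H.eval (algebraMap k L x)))
    (h0 : ∀ p ∈ T, p ∉ T1 → ct P p x = 0) :
    ct P (∏ p ∈ T1, p) x = 0 ∨ 2 ≤ ct P (∏ p ∈ T1, p) x := by
  classical
  set G : L[X] := ∏ p ∈ T1, p with hG
  have hpe : ∀ p ∈ T, p.eval (algebraMap k L x) ≠ 0 := by
    intro p hp h0
    apply hx
    obtain ⟨r, hr⟩ := (hT p hp).2.2.1
    rw [hr, Polynomial.eval_mul, h0, zero_mul]
  have hGa : G.eval (algebraMap k L x) ≠ 0 := by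
    rw [hG, Polynomial.eval_prod]
    exact Finset.prod_ne_zero_iff.2 fun p hp => hpe p (hT1 hp)
  have h1 : (m : ℤ) ∣ ct P H x := dvd_sub hord hcnt
  have h2 : ct P H x = ∑ p ∈ T, (e p : ℤ) * ct P p x := by
    have hprod : (∏ p ∈ T, p ^ e p).eval (algebraMap k L x) ≠ 0 := by
      rw [Polynomial.eval_prod]
      refine Finset.prod_ne_zero_iff.2 fun p hp => ?_
      rw [Polynomial.eval_pow]
      exact pow_ne_zero _ (hpe p hp)
    rw [hHT, ct_mul P (by rw [Polynomial.eval_C]; exact hu) hprod, ct_C P hu, zero_add,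
      ct_prod P T _ fun p hp => by
        rw [Polynomial.eval_pow]
        exact pow_ne_zero _ (hpe p hp)]
    exact Finset.sum_congr rfl fun p hp => ct_pow P (hpe p hp) _
  have h4 : ct P H x = ∑ p ∈ T1, (e p : ℤ) * ct P p x := by
    rw [h2]
    symm
    refine Finset.sum_subset hT1 fun p hp hp1 => ?_
    rw [h0 p hp hp1, mul_zero]
  have h5 : ct P G x = ∑ p ∈ T1, ct P p x :=
    ct_prod P T1 _ fun p hp => hpe p (hT1 hp)
  have h6 : ct P G x ≤ ct P H x := by
    rw [h4, h5]
    refine Finset.sum_le_sum fun p hp => ?_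
    have h7 := ct_nonneg P (hpe p (hT1 hp))
    have h8 : (1 : ℤ) ≤ e p := by exact_mod_cast (hT p (hT1 hp)).2.2.2.1
    nlinarith
  have h7 : ct P H x ≤ ((m : ℤ) - 1) * ct P G x := by
    rw [h4, h5, Finset.mul_sum]
    refine Finset.sum_le_sum fun p hp => ?_
    have h7 := ct_nonneg P (hpe p (hT1 hp))
    have h8 : (e p : ℤ) ≤ (m : ℤ) - 1 := by
      have := hem p (hT1 hp)
      omega
    nlinarith
  have h8 : 0 ≤ ct P G x := ct_nonneg P hGa
  obtain ⟨c, hc⟩ := h1
  by_contra hcon
  push Not at hcon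
  have h9 : ct P G x = 1 := by omega
  rw [h9, hc] at h6
  rw [h9, hc, mul_one] at h7
  have hm' : (2 : ℤ) ≤ m := by exact_mod_cast hm
  have h10 : c < 1 := by
    by_contra h
    push Not at h
    nlinarith
  have h11 : c ≤ 0 := by omega
  nlinarith

end cont

section dc

variable {k : Type} [Field k] {M : Type} [Field M] {L : Type} [Field L] [Algebra k L] [Algebra M L]

/-- The coefficients of the polynomial are killed by the derivation. -/
def DC (D : Derivation M L L) (p : L[X]) : Prop := ∀ i, D (p.coeff i) = 0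

theorem DC.eval {D : Derivation M L L} {p : L[X]} (hp : DC D p) {y : L} (hy : D y = 0) :
    D (p.eval y) = 0 := by
  rw [Polynomial.eval_eq_sum_range, map_sum]
  refine Finset.sum_eq_zero fun i _ => ?_
  rw [D.leibniz, D.leibniz_pow, hp i, hy]
  simp

theorem dc_X_sub_C {D : Derivation M L L} {y : L} (hy : D y = 0) : DC D (X - C y) := by
  intro i
  rw [coeff_sub, map_sub, coeff_X, coeff_C]
  split_ifs <;> simp [hy]

/-- at a moving place -/
theorem DC.cnt {D : Derivation M L L} {P : Place k L} (hP : Mov D P) {p : L[X]} (hp : DC D p)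
    (hm : p.Monic) : cnt P p = 0 := by
  apply cnt_unique
  · intro j
    right
    rw [hP.2.2 _ (hp j)]
  · refine ⟨p.natDegree, ?_, ?_⟩
    · rw [hm.coeff_natDegree]
      exact one_ne_zero
    · rw [hm.coeff_natDegree, P.ord_one]

theorem DC.ct {D : Derivation M L L} {P : Place k L} (hP : Mov D P) {p : L[X]} (hp : DC D p)
    (hm : p.Monic) {x : k} (hx : D (algebraMap k L x) = 0) : ct P p x = 0 := by
  unfold BV.ct
  rw [hp.cnt hP hm, hP.2.2 _ (hp.eval hx), sub_zero]

/-- The resultant does not vanish if there is no constant factor. -/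
theorem res_ne' {n : ℕ} {D : Derivation M L L} {f : Fin (n + 1) → L}
    (hf : f (Fin.last n) ≠ 0) (hsq : Squarefree (pol f))
    (hno : ∀ p : L[X], Irreducible p → p.Monic → p ∣ pol f → ¬ DC D p) :
    resultant (pol f) (pol fun j => D (f j)) n n ≠ 0 := by
  intro h0
  have hlast : (pol f).coeff n ≠ 0 := by
    have h := coeff_pol f (Fin.last n)
    rw [Fin.val_last] at h
    rwa [h]
  have hdeg : (pol f).natDegree = n :=
    natDegree_eq_of_le_of_coeff_ne_zero (natDegree_pol_le f) hlast
  obtain ⟨d, hd⟩ := Nat.exists_eq_add_of_le (natDegree_pol_le fun j => D (f j))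
  have h1 : resultant (pol f) (pol fun j => D (f j)) n
      ((pol fun j => D (f j)).natDegree + d) = 0 := by
    rw [← hd]; exact h0
  rw [resultant_add_right_deg _ _ _ _ _ le_rfl] at h1
  have h2 := (mul_eq_zero.1 h1).resolve_left (pow_ne_zero _ hlast)
  have h3 : resultant (pol f) (pol fun j => D (f j)) = 0 := by
    rw [hdeg]; exact h2
  rw [resultant_eq_zero_iff] at h3
  have hF0 : pol f ≠ 0 := fun h => hlast (by rw [h, coeff_zero])
  apply h3.2
  refine isCoprime_of_irreducible_dvd (fun h => hF0 h.1) fun p hp hpF hpG => ?_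
  -- a monic irreducible common factor
  obtain ⟨p', hp'⟩ : ∃ p', p' = C p.leadingCoeff⁻¹ * p := ⟨_, rfl⟩
  have hlc : p.leadingCoeff ≠ 0 := leadingCoeff_ne_zero.2 hp.ne_zero
  have hmon : p'.Monic := by
    rw [hp', Monic, leadingCoeff_mul, leadingCoeff_C, inv_mul_cancel₀ hlc]
  have hu : IsUnit (C p.leadingCoeff⁻¹ : L[X]) := isUnit_C.2 (inv_ne_zero hlc).isUnit
  have hirr : Irreducible p' := by
    rw [hp']
    exact (irreducible_isUnit_mul hu).2 hp
  have hdF : p' ∣ pol f := by
    rw [hp']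
    exact hu.mul_left_dvd.2 hpF
  have hdF' := hdF
  have hdG : p' ∣ dco D (pol f) := by
    rw [dco_pol, hp']
    exact hu.mul_left_dvd.2 hpG
  obtain ⟨Q, hQ⟩ := hdF
  rw [hQ, dco_mul] at hdG
  have h4 : p' ∣ dco D p' * Q := (dvd_add_left (dvd_mul_right _ _)).1 hdG
  have h5 : p' ∣ dco D p' := by
    rcases hirr.prime.dvd_or_dvd h4 with h | h
    · exact h
    · exfalso
      obtain ⟨Q', rfl⟩ := h
      have := hsq p' ⟨Q', by rw [hQ]; ring⟩
      exact hirr.not_isUnit this
  have h6 : dco D p' = 0 := by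
    by_contra hne
    have h7 := natDegree_le_of_dvd h5 hne
    have h8 : (dco D p').coeff (dco D p').natDegree ≠ 0 := by
      rw [coeff_natDegree]
      exact leadingCoeff_ne_zero.2 hne
    rw [coeff_dco] at h8
    apply h8
    rcases h7.lt_or_eq with h | h
    · rw [coeff_eq_zero_of_natDegree_lt h, map_zero]
    · rw [← h, coeff_natDegree, hmon.leadingCoeff, D.map_one_eq_zero]
  refine hno p' hirr hmon hdF' fun i => ?_
  have h := coeff_dco D p' i
  rw [h6, coeff_zero] at h
  exact h.symm

end dc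

section main

variable {k : Type} [Field k] [IsAlgClosed k] [CharZero k] {M : Type} [Field M] {L : Type} [Field L]
  [Algebra k L] [Algebra M L] [IsFF k L]

omit [IsAlgClosed k] in
theorem hgt_le_pht {n : ℕ} {f : Fin (n + 1) → L} {l : Fin (n + 1)} (hl : f l = 1)
    (j : Fin (n + 1)) : hgt k (f j) ≤ pht k f := by
  classical
  obtain ⟨T1, hT1⟩ := exists_supp (k := k) Finset.univ f
  have hf : ∃ j, f j ≠ 0 := ⟨l, by rw [hl]; exact one_ne_zero⟩
  have hTp : ∀ P : Place k L, pord P f ≠ 0 → P ∈ T1 := by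
    intro P hP
    obtain ⟨j, _, hj⟩ := exists_pord P hf
    rw [← hj] at hP
    exact hT1 j (Finset.mem_univ _) P hP
  have hs4 : pht k f = - ∑ P ∈ T1, pord P f := by
    unfold pht
    rw [finsum_eq_sum_of_support_subset (s := T1)]
    intro P hP
    exact Finset.mem_coe.2 (hTp P hP)
  rw [hs4, hgt_finset (f j) T1 fun P hP => hT1 j (Finset.mem_univ _) P hP,
    ← Finset.sum_neg_distrib]
  refine Finset.sum_le_sum fun P _ => ?_
  have h1 : pord P f ≤ 0 := by
    have := pord_le P (f := f) (j := l) (by rw [hl]; exact one_ne_zero)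
    rwa [hl, P.ord_one] at this
  refine max_le ?_ (by omega)
  by_cases hj : f j = 0
  · rw [hj, P.ord_zero]
    omega
  · have := pord_le P hj
    omega

omit [CharZero k] [IsFF k L] in
/-- A monic polynomial of height zero has constant coefficients, and its irreducible factors are
linear. -/
theorem factor_const {R : L[X]} (hR : R.Monic) (h : ∀ j, ∃ c : k, R.coeff j = algebraMap k L c)
    {p : L[X]} (hp : Irreducible p) (hpm : p.Monic) (hpR : p ∣ R) :
    ∃ b : k, p = X - C (algebraMap k L b) := by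
  choose c hc using h
  have h1 : R ∈ Polynomial.lifts (algebraMap k L) := by
    rw [Polynomial.lifts_iff_coeff_lifts]
    exact fun j => ⟨c j, (hc j).symm⟩
  obtain ⟨R0, hR0⟩ := (Polynomial.mem_lifts _).1 h1
  have hR0m : R0.Monic := by
    rw [← hR0] at hR
    exact Polynomial.monic_of_injective (algebraMap k L).injective hR
  have h2 : R0 = (R0.roots.map fun b => X - C b).prod :=
    (IsAlgClosed.splits R0).eq_prod_roots_of_monic hR0m
  have h3 : R = (R0.roots.map fun b => X - C (algebraMap k L b)).prod := by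
    rw [← hR0]
    conv_lhs => rw [h2]
    rw [Polynomial.map_multiset_prod, Multiset.map_map]
    congr 1
    refine Multiset.map_congr rfl fun b _ => ?_
    simp
  rw [h3] at hpR
  obtain ⟨a, ha, hpa⟩ := hp.prime.exists_mem_multiset_map_dvd hpR
  exact ⟨a, Polynomial.eq_of_monic_of_associated hpm (Polynomial.monic_X_sub_C _)
    (hp.associated_of_dvd (Polynomial.irreducible_X_sub_C _) hpa)⟩

/-- **The structure theorem.** -/
theorem rig_struct {m d q : ℕ} (hm : 2 ≤ m) {D : Derivation M L L}
    (hreg : ∀ P : Place k L, Reg0 D P ∨ Mov D P) {H : L[X]} (hH : H ≠ 0) (hdeg : H.natDegree ≤ d)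
    {x : Fin q → k} (hx : Function.Injective x) (hq : 4 * d < q)
    (hDx : ∀ i, D (algebraMap k L (x i)) = 0)
    (hpow : ∀ i, ∃ w, w ^ m = H.eval (algebraMap k L (x i)))
    {T : Finset L[X]} {e : L[X] → ℕ} {u : L} (hu : u ≠ 0)
    (hT : ∀ p ∈ T, Irreducible p ∧ p.Monic ∧ p ∣ H ∧ 1 ≤ e p ∧ p ^ (e p) ∣ H)
    (hHT : H = C u * ∏ p ∈ T, p ^ (e p)) (hTall : ∀ p, Irreducible p → p.Monic → p ∣ H → p ∈ T)
    (hem : ∀ p ∈ T, e p < m) :
    ∀ p ∈ T, DC D p ∨ ∃ b : k, p = X - C (algebraMap k L b) := by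
  classical
  have hchL : CharZero L := charZero_of_injective_algebraMap (algebraMap k L).injective
  set T1 : Finset L[X] := T.filter (fun p => ¬ DC D p) with hT1
  set T0 : Finset L[X] := T.filter (fun p => ¬ ¬ DC D p) with hT0
  set G : L[X] := ∏ p ∈ T1, p with hG
  have hT1T : ∀ p ∈ T1, p ∈ T := fun p hp => (Finset.mem_filter.1 hp).1
  have hGsep : G.Separable := by
    refine Polynomial.separable_prod' ?_ ?_
    · intro p hp r hr hpr
      exact coprime_of_ne (hT p (hT1T p hp)).1 (hT r (hT1T r hr)).1 (hT p (hT1T p hp)).2.1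
        (hT r (hT1T r hr)).2.1 hpr
    · intro p hp
      exact (hT p (hT1T p hp)).1.separable
  have hGm : G.Monic := Polynomial.monic_prod_of_monic _ _ fun p hp => (hT p (hT1T p hp)).2.1
  have hG0 : G ≠ 0 := hGsep.ne_zero
  have hGx : ∀ i, G.eval (algebraMap k L (x i)) ≠ 0 := by
    intro i
    rw [hG, Polynomial.eval_prod]
    refine Finset.prod_ne_zero_iff.2 fun p hp h0 => ?_
    apply (Finset.mem_filter.1 hp).2
    rw [eq_X_sub_C (hT p (hT1T p hp)).1 (hT p (hT1T p hp)).2.1 h0]
    exact dc_X_sub_C (hDx i)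
  -- the good nodes
  let I1 : Finset (Fin q) := Finset.univ.filter fun i => H.eval (algebraMap k L (x i)) ≠ 0
  let I0 : Finset (Fin q) := Finset.univ.filter fun i => ¬ H.eval (algebraMap k L (x i)) ≠ 0
  have hI : I1.card + I0.card = q := by
    have := Finset.card_filter_add_card_filter_not (s := (Finset.univ : Finset (Fin q)))
      (fun i => H.eval (algebraMap k L (x i)) ≠ 0)
    rw [Finset.card_univ, Fintype.card_fin] at this
    exact this
  -- degrees
  have hdegT : ∑ p ∈ T, p.natDegree ≤ d := by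
    have h1 : (∏ p ∈ T, p) ∣ H := by
      rw [hHT]
      refine Dvd.dvd.mul_left ?_ _
      exact Finset.prod_dvd_prod_of_dvd _ _ fun p hp =>
        dvd_pow_self p (by have := (hT p hp).2.2.2.1; omega)
    have h2 := Polynomial.natDegree_le_of_dvd h1 hH
    rw [Polynomial.natDegree_prod _ _ fun p hp => (hT p hp).1.ne_zero] at h2
    exact h2.trans hdeg
  have hdegG : G.natDegree = ∑ p ∈ T1, p.natDegree := by
    rw [hG, Polynomial.natDegree_prod _ _ fun p hp => (hT p (hT1T p hp)).1.ne_zero]
  have hI0T : I0.card ≤ ∑ p ∈ T0, p.natDegree := by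
    have h1 : I0.card ≤ T0.card := by
      refine Finset.card_le_card_of_injOn (fun i => X - C (algebraMap k L (x i))) ?_ ?_
      · intro i hi
        have hi2 := (Finset.mem_filter.1 hi).2
        rw [not_not] at hi2
        refine Finset.mem_coe.2 (Finset.mem_filter.2 ⟨hTall _ (Polynomial.irreducible_X_sub_C _)
          (Polynomial.monic_X_sub_C _) (Polynomial.dvd_iff_isRoot.2 hi2), ?_⟩)
        rw [not_not]
        exact dc_X_sub_C (hDx i)
      · intro i _ j _ hij
        have h2 := Polynomial.C_injective (sub_right_injective hij)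
        exact hx ((algebraMap k L).injective h2)
    refine h1.trans ?_
    rw [Finset.card_eq_sum_ones]
    refine Finset.sum_le_sum fun p hp => ?_
    exact (hT p (Finset.mem_filter.1 hp).1).1.natDegree_pos
  have hsplitT : ∑ p ∈ T1, p.natDegree + ∑ p ∈ T0, p.natDegree = ∑ p ∈ T, p.natDegree :=
    Finset.sum_filter_add_sum_filter_not _ _ _
  -- the coefficients of `G`
  obtain ⟨δ, hδ⟩ : ∃ δ, δ = G.natDegree := ⟨_, rfl⟩
  obtain ⟨f, hf⟩ : ∃ f : Fin (δ + 1) → L, f = fun j : Fin (δ + 1) => G.coeff (j : ℕ) := ⟨_, rfl⟩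
  have hfG : pol f = G := by
    rw [hf]
    exact (eq_pol hδ.ge).symm
  have hflast : f (Fin.last δ) = 1 := by
    rw [hf]
    simp only [Fin.val_last]
    rw [hδ]
    exact hGm.coeff_natDegree
  have hf0 : ∃ j, f j ≠ 0 := ⟨Fin.last δ, by rw [hflast]; exact one_ne_zero⟩
  have hR : resultant (pol f) (pol fun j => D (f j)) δ δ ≠ 0 := by
    refine res_ne' (by rw [hflast]; exact one_ne_zero) (by rw [hfG]; exact hGsep.squarefree) ?_
    intro p hp hpm hpG
    rw [hfG, hG] at hpG
    obtain ⟨r, hr, hpr⟩ := (hp.prime.dvd_finsetProd_iff _).1 hpG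
    rw [Polynomial.eq_of_monic_of_associated hpm (hT r (hT1T r hr)).2.1
      (hp.associated_of_dvd (hT r (hT1T r hr)).1 hpr)]
    exact (Finset.mem_filter.1 hr).2
  have hlv : ∀ i, lv (rnc δ (fun _ => 1) x i) f = G.eval (algebraMap k L (x i)) := by
    intro i
    rw [lv_one, hfG]
  have hcnt : ∀ P : Place k L, (m : ℤ) ∣ cnt P H := by
    intro P
    obtain ⟨j, hj, hj2⟩ := exists_good P hH hdeg (fun i : Fin (d + 1) =>
      x (Fin.castLE (by omega) i)) (fun a b hab => Fin.castLE_injective _ (hx hab))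
    rw [← hj2]
    obtain ⟨w, hw⟩ := hpow (Fin.castLE (by omega) j)
    rw [← hw, P.ord_pow]
    exact Dvd.intro _ rfl
  have hpht : pht k f ≤ 0 := by
    refine rig_glob hreg hf0 (u := fun _ => (1 : k)) (v := x) (fun i => ?_) hDx ?_
      (fun i => by rw [hlv]; exact hGx i) hR I1 (by omega) ?_
    · rw [map_one, D.map_one_eq_zero]
    · intro i j hij h
      rw [one_mul, one_mul] at h
      exact hij (hx h.symm)
    · intro P i hi hlt hnr
      rw [hlv] at hlt ⊢
      have hmov : Mov D P := (hreg P).resolve_left hnr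
      have h1 := ram_gen hm P hu hT hHT hem (Finset.filter_subset (fun p => ¬ DC D p) T)
        (Finset.mem_filter.1 hi).2 (hcnt P) (by
          obtain ⟨w, hw⟩ := hpow i
          rw [← hw, P.ord_pow]
          exact Dvd.intro _ rfl) (fun p hp hp1 => by
            have h2 : DC D p := by
              by_contra hcon
              exact hp1 (Finset.mem_filter.2 ⟨hp, hcon⟩)
            exact h2.ct hmov (hT p hp).2.1 (hDx i))
      rw [← hT1, ← hG] at h1
      have h2 : cnt P G = pord P f := by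
        rw [← hfG]
        exact pord_eq_cnt P hf0
      unfold BV.ct at h1
      rw [h2] at h1
      omega
  -- all coefficients are constant
  have hcoef : ∀ j, ∃ c : k, G.coeff j = algebraMap k L c := by
    intro j
    by_cases hj : j < δ + 1
    · have h1 : hgt k (f ⟨j, hj⟩) ≤ 0 := (hgt_le_pht hflast _).trans hpht
      obtain ⟨c, hc⟩ := Pool.Agent.W603.LV.const_of_hgt h1
      refine ⟨c, ?_⟩
      rw [← hc, hf]
    · exact ⟨0, by rw [coeff_eq_zero_of_natDegree_lt (by omega), map_zero]⟩
  intro p hp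
  by_cases h : DC D p
  · exact Or.inl h
  · right
    exact factor_const hGm hcoef (hT p hp).1 (hT p hp).2.1
      (Finset.dvd_prod_of_mem _ (Finset.mem_filter.2 ⟨hp, h⟩))

omit [CharZero k] in
/-- a nonconstant element has a zero -/
theorem exists_zero [CharZero k] {z : L} (hz : ∀ c : k, z ≠ algebraMap k L c) :
    ∃ P : Place k L, 0 < P.ord z := by
  by_contra hcon
  push Not at hcon
  have h1 : hgt k z⁻¹ ≤ 0 := by
    unfold hgt
    refine le_of_eq (finsum_eq_zero_of_forall_eq_zero fun P => ?_)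
    rw [P.ord_inv, neg_neg]
    exact max_eq_right (hcon P)
  obtain ⟨c, hc⟩ := Pool.Agent.W603.LV.const_of_hgt h1
  exact hz c⁻¹ (by rw [map_inv₀, ← hc, inv_inv])

/-- **The moving node.** -/
theorem rig_move {m : ℕ} {D : Derivation M L L}
    (hreg : ∀ P : Place k L, Reg0 D P ∨ Mov D P)
    (hDk : ∀ c : k, ∃ c' : k, D (algebraMap k L c) = algebraMap k L c') {H : L[X]}
    (hcnt : ∀ P : Place k L, (m : ℤ) ∣ cnt P H)
    {T : Finset L[X]} {e : L[X] → ℕ} {u : L} (hu : u ≠ 0)
    (hT : ∀ p ∈ T, Irreducible p ∧ p.Monic ∧ p ∣ H ∧ 1 ≤ e p ∧ p ^ (e p) ∣ H)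
    (hHT : H = C u * ∏ p ∈ T, p ^ (e p)) (hem : ∀ p ∈ T, e p < m)
    (hall : ∀ p ∈ T, DC D p ∨ ∃ b : k, p = X - C (algebraMap k L b))
    {s : L} (hs : D s = 0) (hsc : ∀ c : k, s ≠ algebraMap k L c)
    (hpow : ∃ w, w ^ m = H.eval s) (hne : H.eval s ≠ 0) : ∀ p ∈ T, DC D p := by
  classical
  intro p0 hp0
  rcases hall p0 hp0 with h | ⟨b0, hb0⟩
  · exact h
  by_contra hnd
  have hDb : D (algebraMap k L b0) ≠ 0 := by
    intro h0
    apply hnd
    rw [hb0]
    exact dc_X_sub_C h0
  have hz : ∀ c : k, s - algebraMap k L b0 ≠ algebraMap k L c := by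
    intro c hc
    apply hsc (c + b0)
    rw [map_add, ← hc]
    ring
  obtain ⟨P, hP⟩ := exists_zero hz
  have hDz : D (s - algebraMap k L b0) = - D (algebraMap k L b0) := by
    rw [map_sub, hs, zero_sub]
  obtain ⟨c', hc'⟩ := hDk b0
  have hDo : P.ord (D (s - algebraMap k L b0)) = 0 := by
    rw [hDz, P.ord_neg, hc']
    refine P.ord_const ?_
    rintro rfl
    rw [map_zero] at hc'
    exact hDb hc'
  have hDne : D (s - algebraMap k L b0) ≠ 0 := by
    rw [hDz]
    exact neg_ne_zero.2 hDb
  have hmov : Mov D P := by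
    refine (hreg P).resolve_left fun h => ?_
    have := h _ hDne
    omega
  have ho1 : P.ord (s - algebraMap k L b0) = 1 := by
    have := hmov.1 _ hDne
    omega
  -- the orders of the values
  have hpe : ∀ p ∈ T, p.eval s ≠ 0 := by
    intro p hp h0
    apply hne
    obtain ⟨r, hr⟩ := (hT p hp).2.2.1
    rw [hr, Polynomial.eval_mul, h0, zero_mul]
  have hord : ∀ p ∈ T, P.ord (p.eval s) = if p = p0 then 1 else 0 := by
    intro p hp
    split_ifs with h
    · rw [h, hb0]
      simpa using ho1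
    · rcases hall p hp with h1 | ⟨b, hb⟩
      · exact hmov.2.2 _ (h1.eval hs)
      · have hbb : b ≠ b0 := by
          rintro rfl
          exact h (hb.trans hb0.symm)
        have e1 : p.eval s = (s - algebraMap k L b0) + algebraMap k L (b0 - b) := by
          rw [hb, map_sub]
          simp
        have h2 : P.ord (algebraMap k L (b0 - b)) = 0 := P.ord_const (sub_ne_zero.2 (Ne.symm hbb))
        rw [e1]
        have h3 : Ge P 0 ((s - algebraMap k L b0) + algebraMap k L (b0 - b)) :=
          Ge.add (Or.inr hP.le) (Ge.const _)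
        have h4 := h3.resolve_left (by rw [← e1]; exact hpe p hp)
        by_contra h5
        have h6 : Ge P 1 ((s - algebraMap k L b0) + algebraMap k L (b0 - b)) :=
          Or.inr (by omega)
        have h7 : Ge P 1 (algebraMap k L (b0 - b)) := by
          have h8 : Ge P 1 (s - algebraMap k L b0) := Or.inr (by omega)
          have h9 := h6.sub h8
          rwa [add_sub_cancel_left] at h9
        rcases h7 with h7 | h7
        · exact sub_ne_zero.2 (Ne.symm hbb) ((map_eq_zero _).1 h7)
        · omega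
  have hcntp : ∀ p ∈ T, cnt P p = 0 := by
    intro p hp
    rcases hall p hp with h1 | ⟨b, hb⟩
    · exact h1.cnt hmov (hT p hp).2.1
    · rw [hb]
      apply cnt_unique
      · intro j
        rw [coeff_sub, coeff_X, coeff_C]
        refine Ge.sub ?_ ?_
        · split_ifs
          · exact Ge.one
          · exact Ge.zero
        · split_ifs
          · exact Ge.const _
          · exact Ge.zero
      · exact ⟨1, by simp [coeff_X], by simp [coeff_X, P.ord_one]⟩
  have hprodne : (∏ p ∈ T, p ^ e p) ≠ 0 :=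
    Finset.prod_ne_zero_iff.2 fun p hp => pow_ne_zero _ (hT p hp).1.ne_zero
  have h1 : cnt P H = P.ord u := by
    rw [hHT, cnt_mul P (by rw [Ne, C_eq_zero]; exact hu) hprodne, cnt_C P hu]
    have h2 : ∀ S : Finset L[X], S ⊆ T → cnt P (∏ p ∈ S, p ^ e p) = 0 := by
      intro S
      induction S using Finset.induction_on with
      | empty => intro _; rw [Finset.prod_empty, cnt_one]
      | insert p S hpS ih =>
        intro hS
        rw [Finset.insert_subset_iff] at hS
        rw [Finset.prod_insert hpS, cnt_mul P (pow_ne_zero _ (hT p hS.1).1.ne_zero)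
          (Finset.prod_ne_zero_iff.2 fun r hr => pow_ne_zero _ (hT r (hS.2 hr)).1.ne_zero),
          ih hS.2, add_zero]
        have h3 : ∀ r : ℕ, cnt P (p ^ r) = 0 := by
          intro r
          induction r with
          | zero => rw [pow_zero, cnt_one]
          | succ r ih =>
            rw [pow_succ, cnt_mul P (pow_ne_zero _ (hT p hS.1).1.ne_zero) (hT p hS.1).1.ne_zero,
              ih, hcntp p hS.1, add_zero]
        exact h3 _
    rw [h2 T (Finset.Subset.refl T), add_zero]
  have h2 : P.ord (H.eval s) = P.ord u + e p0 := by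
    have h3 : H.eval s = u * ∏ p ∈ T, p.eval s ^ e p := by
      conv_lhs => rw [hHT]
      rw [eval_mul, eval_C, eval_prod]
      simp only [eval_pow]
    have h4 : ∏ p ∈ T, p.eval s ^ e p ≠ 0 :=
      Finset.prod_ne_zero_iff.2 fun p hp => pow_ne_zero _ (hpe p hp)
    rw [h3, P.ord_mul hu h4]
    congr 1
    have h5 : ∀ S : Finset L[X], S ⊆ T → P.ord (∏ p ∈ S, p.eval s ^ e p) =
        ∑ p ∈ S, (e p : ℤ) * P.ord (p.eval s) := by
      intro S
      induction S using Finset.induction_on with
      | empty => intro _; rw [Finset.prod_empty, Finset.sum_empty, P.ord_one]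
      | insert p S hpS ih =>
        intro hS
        rw [Finset.insert_subset_iff] at hS
        rw [Finset.prod_insert hpS, Finset.sum_insert hpS,
          P.ord_mul (pow_ne_zero _ (hpe p hS.1)) (Finset.prod_ne_zero_iff.2 fun r hr =>
            pow_ne_zero _ (hpe r (hS.2 hr))), ih hS.2, P.ord_pow]
    rw [h5 T (Finset.Subset.refl T), Finset.sum_congr rfl fun p hp => by rw [hord p hp],
      Finset.sum_eq_single p0]
    · rw [if_pos rfl, mul_one]
    · intro p _ hpp
      rw [if_neg hpp, mul_zero]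
    · exact fun h => absurd hp0 h
  obtain ⟨w, hw⟩ := hpow
  have h3 : (m : ℤ) ∣ P.ord (H.eval s) := by
    rw [← hw, P.ord_pow]
    exact Dvd.intro _ rfl
  have h4 : (m : ℤ) ∣ (e p0 : ℤ) := by
    have h5 := hcnt P
    rw [h1] at h5
    rw [h2] at h3
    exact (dvd_add_right h5).1 h3
  have h5 := (hT p0 hp0).2.2.2.1
  have h6 := hem p0 hp0
  have h7 : m ∣ e p0 := by exact_mod_cast h4
  have h8 := Nat.le_of_dvd (by omega) h7
  omega

end main

end Pool.Agent.Y190.GN
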