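import Pool.Agent.TH145.MF.Rig

/-!
Polynomials with coefficients in the ultrapower.
-/

set_option autoImplicit false

open Polynomial FF Pool.Agent.W602.RG Pool.Agent.TH145.MF

namespace Pool.Agent.Y190.GN

theorem X_sub_C_pow_dvd {R : Type*} [CommRing R] {t : R} {m : ℕ} {H : R[X]} :
    (X - C t) ^ m ∣ H ↔ ∀ i < m, (hasseDeriv i H).eval t = 0 := by
  rw [Polynomial.X_sub_C_pow_dvd_iff, ← Polynomial.taylor_apply, Polynomial.X_pow_dvd_iff]
  simp only [Polynomial.taylor_coeff]

/-- Lagrange interpolation with nodes in a subfield -/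
theorem lagrange_map {k L : Type} [Field k] [Field L] [Algebra k L] {F : L[X]} {d : ℕ}
    (hd : F.natDegree ≤ d) {x : Fin (d + 1) → k} (hx : Function.Injective x) :
    F = ∑ s, C (F.eval (algebraMap k L (x s))) *
      (Lagrange.basis Finset.univ x s).map (algebraMap k L) := by
  classical
  have hinj : Set.InjOn x ((Finset.univ : Finset (Fin (d + 1))) : Set (Fin (d + 1))) :=
    hx.injOn
  have hinj' : Set.InjOn (fun s => algebraMap k L (x s))
      ((Finset.univ : Finset (Fin (d + 1))) : Set (Fin (d + 1))) :=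
    fun a _ b _ h => hx ((algebraMap k L).injective h)
  refine Polynomial.eq_of_degrees_lt_of_eval_index_eq Finset.univ hinj' ?_ ?_ ?_
  · rw [Finset.card_univ, Fintype.card_fin]
    refine (Polynomial.degree_le_natDegree).trans_lt ?_
    exact_mod_cast Nat.lt_succ_of_le hd
  · rw [Finset.card_univ, Fintype.card_fin]
    refine (Polynomial.degree_sum_le _ _).trans_lt ?_
    rw [Finset.sup_lt_iff (WithBot.bot_lt_coe _)]
    intro i _
    refine (Polynomial.degree_mul_le _ _).trans_lt ?_
    refine lt_of_le_of_lt (add_le_add Polynomial.degree_C_le le_rfl) ?_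
    rw [zero_add, Polynomial.degree_map, Lagrange.degree_basis hinj (Finset.mem_univ i)]
    simp only [Finset.card_univ, Fintype.card_fin]
    exact_mod_cast Nat.lt_succ_self d
  · intro j _
    rw [Polynomial.eval_finsetSum]
    have h3 : ∀ i : Fin (d + 1), ((Lagrange.basis Finset.univ x i).map (algebraMap k L)).eval
        (algebraMap k L (x j)) = if i = j then 1 else 0 := by
      intro i
      rw [Polynomial.eval_map_algebraMap, Polynomial.aeval_algebraMap_apply,
        Polynomial.coe_aeval_eq_eval]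
      split_ifs with h
      · rw [h, Lagrange.eval_basis_self hinj (Finset.mem_univ j), map_one]
      · rw [Lagrange.eval_basis_of_ne h (Finset.mem_univ j), map_zero]
    simp only [Polynomial.eval_mul, Polynomial.eval_C, h3]
    simp

section

variable {k L : Type} [Field k] [Field L] [Algebra k L]

theorem eval_coe {HE : (EE k L)[X]} {Hs : ℕ → L[X]} {d : ℕ} (hd : HE.natDegree ≤ d)
    (hds : ∀ l, (Hs l).natDegree ≤ d)
    (hc : ∀ i, ((HE.coeff i : EE k L) : Om L) = Om.mk fun l => (Hs l).coeff i) {t : EE k L}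
    {τ : ℕ → L} (ht : (t : Om L) = Om.mk τ) :
    ((HE.eval t : EE k L) : Om L) = Om.mk fun l => (Hs l).eval (τ l) := by
  rw [Polynomial.eval_eq_sum_range' (Nat.lt_succ_of_le hd), ← Subfield.coe_subtype, map_sum]
  have h2 : (Om.mk fun l => (Hs l).eval (τ l)) =
      mkHom L (∑ i ∈ Finset.range (d + 1), (fun l => (Hs l).coeff i) * τ ^ i) := by
    rw [mkHom_apply]
    congr 1
    funext l
    rw [Polynomial.eval_eq_sum_range' (Nat.lt_succ_of_le (hds l))]
    simp only [Finset.sum_apply, Pi.mul_apply, Pi.pow_apply]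
  rw [h2, map_sum]
  refine Finset.sum_congr rfl fun i _ => ?_
  rw [map_mul, map_pow, map_mul, map_pow, Subfield.coe_subtype, hc i, ht]
  rfl

/-- high multiplicity of a root passes to the terms of the sequence -/
theorem mult_coe {HE : (EE k L)[X]} {Hs : ℕ → L[X]} {d m : ℕ} (hd : HE.natDegree ≤ d)
    (hds : ∀ l, (Hs l).natDegree ≤ d)
    (hc : ∀ i, ((HE.coeff i : EE k L) : Om L) = Om.mk fun l => (Hs l).coeff i) {t : EE k L}
    (hm : (X - C t) ^ m ∣ HE) : ∃ (l : ℕ) (τ : L), (X - C τ) ^ m ∣ Hs l := by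
  obtain ⟨τ, hτ⟩ := Om.mk_surj (t : Om L)
  rw [X_sub_C_pow_dvd] at hm
  have h1 : ∀ i : Fin m, ∀ᶠ l in (Filter.hyperfilter ℕ : Filter ℕ),
      (hasseDeriv (i : ℕ) (Hs l)).eval (τ l) = 0 := by
    intro i
    have h2 : ((((hasseDeriv (i : ℕ) HE).eval t : EE k L)) : Om L) =
        Om.mk fun l => (hasseDeriv (i : ℕ) (Hs l)).eval (τ l) := by
      refine eval_coe (d := d) ?_ (fun l => ?_) (fun j => ?_) hτ.symm
      · exact (natDegree_hasseDeriv_le _ _).trans (by omega)
      · have := hds l
        exact (natDegree_hasseDeriv_le _ _).trans (by omega)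
      · rw [hasseDeriv_coeff]
        simp only [hasseDeriv_coeff]
        rw [← Subfield.coe_subtype, map_mul, map_natCast, Subfield.coe_subtype, hc]
        have h3 : (Om.mk fun l => (((j + i).choose (i : ℕ) : ℕ) : L) * (Hs l).coeff (j + i)) =
            mkHom L ((((j + i).choose (i : ℕ) : ℕ) : ℕ → L) *
              (fun l => (Hs l).coeff (j + i))) := by
          rw [mkHom_apply]
          congr 1
        rw [h3, map_mul, map_natCast]
        rfl
    rw [hm i i.2] at h2
    have h3 : (Om.mk fun l => (hasseDeriv (i : ℕ) (Hs l)).eval (τ l)) = Om.mk fun _ => 0 := by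
      rw [← h2]
      rfl
    exact Om.mk_eq.1 h3
  obtain ⟨l, hl⟩ := (Filter.eventually_all.2 h1).exists
  exact ⟨l, τ l, X_sub_C_pow_dvd.2 fun i hi => hl ⟨i, hi⟩⟩

end

end Pool.Agent.Y190.GN
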